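import Pool.Agent.Helper158.Num.Tools

/-!
For every `n ≥ 2` there is a family `A` of `n`-c.e. sets with two `0'`-equivalent, inequivalent
`Σ⁻¹_n`-computable minimal numberings which has, up to equivalence, no further
`Σ⁻¹_n`-computable minimal numbering.
-/

namespace Pool.Agent.Results.MP_711492_lc.ErshovNegative

open Nat.Partrec (Code)

/-- `S` is `n`-c.e., i.e. `S ∈ Σ⁻¹_n`: it has a computable approximation `f` with `f x 0 = false`
for all `x`, which changes its mind at most `n` times on each `x` and has the limit `S`. -/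
def IsNCE (n : ℕ) (S : Set ℕ) : Prop :=
  ∃ f : ℕ → ℕ → Bool, Computable₂ f ∧ (∀ x, f x 0 = false) ∧
    (∀ x, {s | f x s ≠ f x (s + 1)}.encard ≤ n) ∧
    ∀ x, ∃ s₀, ∀ s ≥ s₀, (f x s = true ↔ x ∈ S)

/-- `α` is a numbering of the family `A`. -/
def Numbering (A : Set (Set ℕ)) (α : ℕ → Set ℕ) : Prop := Set.range α = A

/-- `α` is a `Σ⁻¹_n`-computable numbering of the family `A`: the set of the `⟨x, m⟩` with
`m ∈ α x` is `n`-c.e. -/
def CompNumbering (n : ℕ) (A : Set (Set ℕ)) (α : ℕ → Set ℕ) : Prop :=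
  Numbering A α ∧ IsNCE n {z | (Nat.unpair z).2 ∈ α (Nat.unpair z).1}

/-- `β ≤ α`: `β = α ∘ f` for some total computable `f`. -/
def Red (β α : ℕ → Set ℕ) : Prop := ∃ f : ℕ → ℕ, Computable f ∧ ∀ x, β x = α (f x)

/-- `α ≡ β` -/
def Equiv (α β : ℕ → Set ℕ) : Prop := Red α β ∧ Red β α

open Classical in
/-- the oracle `0'`: the characteristic function of the halting problem -/
noncomputable def zeroJump : ℕ →. ℕ := fun z =>
  Part.some (if ((Denumerable.ofNat Code (Nat.unpair z).1).eval (Nat.unpair z).2).Dom then 1 else 0)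

/-- `β` `0'`-reduces to `α`: `β = α ∘ f` for some total `f` computable in `0'`. -/
def JumpRed (β α : ℕ → Set ℕ) : Prop :=
  ∃ f : ℕ → ℕ, ComputableIn {zeroJump} f ∧ ∀ x, β x = α (f x)

/-- `α` and `β` are `0'`-equivalent. -/
def JumpEquiv (α β : ℕ → Set ℕ) : Prop := JumpRed α β ∧ JumpRed β α

/-- The numbering `α` of `A` is minimal: `α ≤ β` for each numbering `β` of `A` (computable or not)
with `β ≤ α`. -/
def Minimal (A : Set (Set ℕ)) (α : ℕ → Set ℕ) : Prop :=
  Numbering A α ∧ ∀ β : ℕ → Set ℕ, Numbering A β → Red β α → Red α β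

/-- The `≡`-classes of the `Σ⁻¹_n`-computable minimal numberings of `A`. -/
def minimalClasses (n : ℕ) (A : Set (Set ℕ)) : Set (Set (ℕ → Set ℕ)) :=
  {C | ∃ α, CompNumbering n A α ∧ Minimal A α ∧ C = {β | Equiv β α}}

/-! ### The limit lemma -/

theorem limit_lemma {g : ℕ → ℕ → ℕ} (hg : Computable₂ g) {f : ℕ → ℕ}
    (h : ∀ x, ∃ s₀, ∀ s ≥ s₀, g x s = f x) : ComputableIn {zeroJump} f := by
  classical
  -- the search for a change
  have h1 : Partrec fun z : ℕ => Nat.rfind (fun t =>
      Part.some (decide (g (Nat.unpair z).1 ((Nat.unpair z).2 + t) ≠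
        g (Nat.unpair z).1 (Nat.unpair z).2)) : ℕ →. Bool) := by
    refine Partrec.rfind ?_
    have a1 : Computable fun p : ℕ × ℕ => (Nat.unpair p.1).1 :=
      Computable.fst.comp (Computable.unpair.comp Computable.fst)
    have a2 : Computable fun p : ℕ × ℕ => (Nat.unpair p.1).2 :=
      Computable.snd.comp (Computable.unpair.comp Computable.fst)
    have a3 : Computable fun p : ℕ × ℕ => (Nat.unpair p.1).2 + p.2 :=
      Primrec.nat_add.to_comp.comp a2 Computable.snd
    have b1 : Computable fun p : ℕ × ℕ => g (Nat.unpair p.1).1 ((Nat.unpair p.1).2 + p.2) :=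
      hg.comp a1 a3
    have b2 : Computable fun p : ℕ × ℕ => g (Nat.unpair p.1).1 (Nat.unpair p.1).2 :=
      hg.comp a1 a2
    have b3 : Computable fun p : ℕ × ℕ =>
        decide (g (Nat.unpair p.1).1 ((Nat.unpair p.1).2 + p.2) =
          g (Nat.unpair p.1).1 (Nat.unpair p.1).2) :=
      (Primrec.eq (α := ℕ)).decide.to_comp.comp b1 b2
    have b4 := Primrec.not.to_comp.comp b3
    exact (b4.of_eq fun p => by simp [decide_not]).partrec
  obtain ⟨c, hc⟩ := Code.exists_code.1 (Partrec.nat_iff.1 h1)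
  set e := Encodable.encode c with he
  have hdom : ∀ x s, ((Denumerable.ofNat Code (Nat.unpair (Nat.pair e (Nat.pair x s))).1).eval
      (Nat.unpair (Nat.pair e (Nat.pair x s))).2).Dom ↔ ∃ t, g x (s + t) ≠ g x s := by
    intro x s
    rw [Nat.unpair_pair, he, Denumerable.ofNat_encode, hc, Nat.rfind_dom]
    simp
  -- recursive search with the oracle
  have k1 : Nat.RecursiveIn {zeroJump} (fun z => zeroJump (Nat.pair e z)) := by
    have k2 : Nat.RecursiveIn {zeroJump} (fun z => Part.some (Nat.pair e z)) := by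
      have : Computable fun z : ℕ => Nat.pair e z :=
        (Primrec₂.natPair.comp (Primrec.const e) Primrec.id).to_comp
      exact Nat.Partrec.recursiveIn (Partrec.nat_iff.1 this.partrec)
    have k3 := Nat.RecursiveIn.comp (O := {zeroJump})
      (Nat.RecursiveIn.oracle zeroJump (Set.mem_singleton _)) k2
    exact k3.of_eq fun z => by simp
  have k4 := Nat.RecursiveIn.rfind k1
  have hmod : ∀ x, ∃ s, ∀ t, g x (s + t) = g x s := by
    intro x
    obtain ⟨s₀, hs₀⟩ := h x
    exact ⟨s₀, fun t => by rw [hs₀ _ (by omega), hs₀ _ le_rfl]⟩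
  have hfind : ∀ x, Nat.find (hmod x) ∈ Nat.rfind (fun s =>
      (fun m => decide (m = 0)) <$> zeroJump (Nat.pair e (Nat.pair x s))) := by
    intro x
    rw [Nat.mem_rfind]
    constructor
    · have h2 := Nat.find_spec (hmod x)
      unfold zeroJump
      rw [if_neg]
      · simp
      · rw [hdom]
        push Not
        exact h2
    · intro s hs
      have h2 := Nat.find_min (hmod x) hs
      unfold zeroJump
      rw [if_pos]
      · simp
      · rw [hdom]
        push Not at h2
        exact h2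
  have k5 : Nat.RecursiveIn {zeroJump} (fun x => Part.some (Nat.find (hmod x))) :=
    k4.of_eq fun x => Part.eq_some_iff.2 (hfind x)
  have k6 : Nat.RecursiveIn {zeroJump} (fun x : ℕ => Part.some x) := by
    exact Nat.Partrec.recursiveIn (Partrec.nat_iff.1 Computable.id.partrec)
  have k7 := Nat.RecursiveIn.pair k6 k5
  have k8 : Nat.RecursiveIn {zeroJump}
      (fun z => Part.some (g (Nat.unpair z).1 (Nat.unpair z).2)) := by
    have : Computable fun z : ℕ => g (Nat.unpair z).1 (Nat.unpair z).2 :=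
      hg.comp (Computable.fst.comp Computable.unpair) (Computable.snd.comp Computable.unpair)
    exact Nat.Partrec.recursiveIn (Partrec.nat_iff.1 this.partrec)
  have k9 := Nat.RecursiveIn.comp k8 k7
  refine RecursiveIn.iff_nat.2 (k9.of_eq fun x => ?_)
  have h3 : g x (Nat.find (hmod x)) = f x := by
    obtain ⟨s₀, hs₀⟩ := h x
    have h4 := Nat.find_spec (hmod x) s₀
    rw [← h4, hs₀ _ (by omega)]
  simp [Seq.seq, h3]

open Helper158.Num Encodable

lemma nce_preimage {n : ℕ} {S : Set ℕ} (h : IsNCE n S) {g : ℕ → ℕ} (hg : Computable g) :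
    IsNCE n (g ⁻¹' S) := by
  obtain ⟨f, hf, h0, h1, h2⟩ := h
  refine ⟨fun x s => f (g x) s, hf.comp (hg.comp Computable.fst) Computable.snd,
    fun x => h0 _, fun x => h1 _, fun x => h2 _⟩

lemma CompNumbering.of_red {n : ℕ} {A : Set (Set ℕ)} {α β : ℕ → Set ℕ} (h : CompNumbering n A α)
    (hβ : Numbering A β) (hr : Red β α) : CompNumbering n A β := by
  obtain ⟨f, hf, h1⟩ := hr
  refine ⟨hβ, ?_⟩
  have h2 : Computable fun z : ℕ => Nat.pair (f (Nat.unpair z).1) (Nat.unpair z).2 :=
    Primrec₂.natPair.to_comp.comp (hf.comp (Computable.fst.comp Computable.unpair))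
      (Computable.snd.comp Computable.unpair)
  have h3 := nce_preimage h.2 h2
  have h4 : (fun z : ℕ => Nat.pair (f (Nat.unpair z).1) (Nat.unpair z).2) ⁻¹'
      {z | (Nat.unpair z).2 ∈ α (Nat.unpair z).1} =
      {z | (Nat.unpair z).2 ∈ β (Nat.unpair z).1} := by
    ext z
    simp [h1]
  rwa [h4] at h3

lemma swap_comp : Computable fun z : ℕ => Nat.pair (Nat.unpair z).2 (Nat.unpair z).1 :=
  Primrec₂.natPair.to_comp.comp (Computable.snd.comp Computable.unpair)
    (Computable.fst.comp Computable.unpair)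

lemma nce_swap {n : ℕ} {α : ℕ → Set ℕ}
    (h : IsNCE n {z | (Nat.unpair z).2 ∈ α (Nat.unpair z).1}) :
    IsNCE n {z | (Nat.unpair z).1 ∈ α (Nat.unpair z).2} := by
  have h1 := nce_preimage h swap_comp
  have h2 : (fun z : ℕ => Nat.pair (Nat.unpair z).2 (Nat.unpair z).1) ⁻¹'
      {z | (Nat.unpair z).2 ∈ α (Nat.unpair z).1} =
      {z | (Nat.unpair z).1 ∈ α (Nat.unpair z).2} := by
    ext z
    simp
  rwa [h2] at h1

lemma nce_swap' {n : ℕ} {α : ℕ → Set ℕ}
    (h : IsNCE n {z | (Nat.unpair z).1 ∈ α (Nat.unpair z).2}) :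
    IsNCE n {z | (Nat.unpair z).2 ∈ α (Nat.unpair z).1} := by
  have h1 := nce_preimage h swap_comp
  have h2 : (fun z : ℕ => Nat.pair (Nat.unpair z).2 (Nat.unpair z).1) ⁻¹'
      {z | (Nat.unpair z).1 ∈ α (Nat.unpair z).2} =
      {z | (Nat.unpair z).2 ∈ α (Nat.unpair z).1} := by
    ext z
    simp
  rwa [h2] at h1

/-! ### Facts on the two numberings (as in `MP_5566a7_lc`) -/

/-- `nu` does not reduce to `mu` -/
lemma nu_not_red_mu {n : ℕ} (hn : 2 ≤ n) : ¬ Red (nu (parU n) n) (mu (parU n) n) := by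
  rintro ⟨f, hf, h1⟩
  obtain ⟨c, hc⟩ := Code.exists_code.1 (Partrec.nat_iff.1 hf.partrec)
  obtain ⟨X, hX⟩ := nu_not_le hn (parU_ok n) (encode c)
  have h2 : f X ∈ Code.eval c X := by rw [hc]; exact Part.mem_some _
  obtain ⟨s, hs⟩ := Code.evaln_complete.1 h2
  refine hX s (f X) ?_ (h1 X)
  change Code.evaln s (cd (encode c)) X = some (f X)
  rw [cd, Denumerable.ofNat_encode]
  exact hs

/-- `nu` is positive: equality of the values is enumerable -/
lemma nu_positive {n : ℕ} (hn : 2 ≤ n) :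
    REPred fun p : ℕ × ℕ => nu (parU n) n p.1 = nu (parU n) n p.2 := by
  classical
  have h1 : PrimrecPred fun q : (ℕ × ℕ) × ℕ =>
      ∃ c ∈ (st (parU n) q.2).1, (3 * q.1.1, 0) ∈ c.mem ∧ (3 * q.1.2, 0) ∈ c.mem :=
    Pr.same (parU_prim n) Primrec.snd (Primrec.fst.comp Primrec.fst)
      (Primrec.snd.comp Primrec.fst)
  have h2 : Partrec fun p : ℕ × ℕ => Nat.rfind
      (fun s => Part.some (decide (∃ c ∈ (st (parU n) s).1, (3 * p.1, 0) ∈ c.mem ∧
        (3 * p.2, 0) ∈ c.mem)) : ℕ →. Bool) := by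
    refine Partrec.rfind ?_
    exact Computable.partrec h1.decide.to_comp
  refine h2.dom_re.of_eq fun p => ?_
  rw [nu_pos hn (parU_ok n)]
  refine Nat.rfind_dom.trans ?_
  constructor
  · rintro ⟨s, h3, -⟩
    have h4 := Part.mem_some_iff.1 h3
    exact ⟨s, by simpa using h4.symm⟩
  · rintro ⟨s, h3⟩
    exact ⟨s, Part.mem_some_iff.2 (by simpa using h3), fun _ => trivial⟩

lemma REPred.of_red {β α : ℕ → Set ℕ} (h : Red β α)
    (hα : REPred fun p : ℕ × ℕ => α p.1 = α p.2) : REPred fun p : ℕ × ℕ => β p.1 = β p.2 := by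
  obtain ⟨f, hf, h1⟩ := h
  have h2 : Computable fun p : ℕ × ℕ => (f p.1, f p.2) :=
    (hf.comp Computable.fst).pair (hf.comp Computable.snd)
  have h3 : REPred fun p : ℕ × ℕ => α (f p.1) = α (f p.2) := Partrec.comp hα h2
  exact h3.of_eq fun p => by rw [h1, h1]

/-- `mu` is not positive -/
lemma mu_not_positive {n : ℕ} (hn : 2 ≤ n) :
    ¬ REPred fun p : ℕ × ℕ => mu (parU n) n p.1 = mu (parU n) n p.2 := by
  intro h
  have h1 : Partrec fun w : ℕ => ((Part.assert
      (mu (parU n) n (Nat.unpair w).1 = mu (parU n) n (Nat.unpair w).2)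
        fun _ => Part.some ()).map fun _ => (0 : ℕ)) :=
    (Partrec.comp h Computable.unpair).map (Computable.const 0).to₂
  obtain ⟨c, hc⟩ := Code.exists_code.1 (Partrec.nat_iff.1 h1)
  have h2 : ∀ a b, (Code.eval c (Nat.pair a b)).Dom ↔
      mu (parU n) n a = mu (parU n) n b := by
    intro a b
    rw [hc]
    constructor
    · intro h3
      have h4 : mu (parU n) n (Nat.unpair (Nat.pair a b)).1 =
        mu (parU n) n (Nat.unpair (Nat.pair a b)).2 := h3.1
      rwa [Nat.unpair_pair] at h4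
    · intro h3
      have h4 : mu (parU n) n (Nat.unpair (Nat.pair a b)).1 =
        mu (parU n) n (Nat.unpair (Nat.pair a b)).2 := by rwa [Nat.unpair_pair]
      exact ⟨h4, trivial⟩
  obtain ⟨X, ⟨h3, h4⟩ | ⟨h3, s, h4⟩⟩ := mu_not_pos hn (parU_ok n) (encode c)
  · obtain ⟨s, hs⟩ := evaln_dom.1 ((h2 _ _).2 h3)
    have h5 := h4 s
    change (Code.evaln s (cd (encode c)) (Nat.pair (2 * X) (2 * X + 1))).isSome = false at h5
    rw [cd, Denumerable.ofNat_encode, hs] at h5
    exact absurd h5 (by simp)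
  · change (Code.evaln s (cd (encode c)) (Nat.pair (2 * X) (2 * X + 1))).isSome = true at h4
    rw [cd, Denumerable.ofNat_encode] at h4
    exact h3 ((h2 _ _).1 (evaln_dom.2 ⟨s, h4⟩))

/-- the dichotomy -/
lemma dichotomy {n : ℕ} (hn : 2 ≤ n) {β : ℕ → Set ℕ}
    (hβc : CompNumbering n (Set.range (nu (parU n) n)) β) :
    (Red β (nu (parU n) n) ∧ Red (nu (parU n) n) β) ∨ Red (mu (parU n) n) β := by
  classical
  obtain ⟨hr, hβn⟩ := hβc
  replace hr : Set.range β = Set.range (nu (parU n) n) := hr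
  obtain ⟨f, hf, h0, h1, h2⟩ := nce_swap hβn
  obtain ⟨e, he⟩ := opp_ex hf h0 h1 h2
  have hβ : ∀ i, ∃ X, β i = nu (parU n) n X := by
    intro i
    have h3 : β i ∈ Set.range (nu (parU n) n) := by rw [← hr]; exact ⟨i, rfl⟩
    obtain ⟨X, hX⟩ := h3
    exact ⟨X, hX.symm⟩
  have hβ' : ∀ X, ∃ i, nu (parU n) n X = β i := by
    intro X
    have h3 : nu (parU n) n X ∈ Set.range β := by rw [hr]; exact ⟨X, rfl⟩
    obtain ⟨i, hi⟩ := h3
    exact ⟨i, hi.symm⟩
  have hO : Opp (parU_ok n) e β := by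
    refine ⟨fun i x => ?_, fun i => ?_⟩
    · rw [← he]
      simp
    · obtain ⟨X, hX⟩ := hβ i
      exact ⟨3 * X, hX⟩
  by_cases hE : (Ee (parU_ok n) e).Finite
  · left
    constructor
    · obtain ⟨g, hg, h3⟩ := unif (R := fun s i X => GR (parU n) e s i X)
        (Pr.GR (parU_prim n) (Pr.cst e) Primrec.fst (Primrec.fst.comp Primrec.snd)
          (Primrec.snd.comp Primrec.snd)) (gr_ex hn hO)
      have hfin : {i | ¬ β i = nu (parU n) n (g i)}.Finite := by
        have hb : ∀ X, ∃ B, X ∈ Ee (parU_ok n) e → ∀ s i, GR (parU n) e s i X → i < B := by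
          intro X
          by_cases hX : X ∈ Ee (parU_ok n) e
          · obtain ⟨B, hB⟩ := gr_bd hX
            exact ⟨B, fun _ => hB⟩
          · exact ⟨0, fun h => absurd h hX⟩
        choose B hB using hb
        apply (hE.biUnion fun X _ => Set.finite_lt_nat (B X)).subset
        intro i hi
        obtain ⟨s, hs⟩ := h3 i
        rcases gr_ok hO hs with h5 | h5
        · exact absurd h5 hi
        · simp only [Set.mem_iUnion]
          exact ⟨g i, h5, hB _ h5 s i hs⟩
      obtain ⟨g', hg', h4⟩ := patch (Q := fun i X => β i = nu (parU n) n X) hg hfin hβ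
      exact ⟨g', hg', h4⟩
    · obtain ⟨g, hg, h3⟩ := unif (R := fun s X i => HR (parU n) e s X i)
        (Pr.HR (parU_prim n) (Pr.cst e) Primrec.fst (Primrec.fst.comp Primrec.snd)
          (Primrec.snd.comp Primrec.snd)) (fun X => by
            obtain ⟨i, hi⟩ := hβ' X
            obtain ⟨s, hs⟩ := hr_ex hn hO hi.symm
            exact ⟨s, i, hs⟩)
      have hfin : {X | ¬ nu (parU n) n X = β (g X)}.Finite := by
        apply hE.subset
        intro X hX
        obtain ⟨s, hs⟩ := h3 X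
        rcases hr_ok hO hs with h5 | h5
        · exact absurd h5.symm hX
        · exact h5
      obtain ⟨g', hg', h4⟩ := patch (Q := fun X i => nu (parU n) n X = β i) hg hfin hβ'
      exact ⟨g', hg', h4⟩
  · right
    have hT := fr_ex hn hO hE (fun X => by
      obtain ⟨i, hi⟩ := hβ' X
      exact ⟨i, hi.symm⟩)
    obtain ⟨g, hg, h3⟩ := unif
      (R := fun s y i => FR (parU n) e s y i ∨ y ∈ hT.toFinset.toList)
      (PrimrecPred.or (Pr.FR (parU_prim n) (Pr.cst e) Primrec.fst (Primrec.fst.comp Primrec.snd)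
          (Primrec.snd.comp Primrec.snd))
          (Pr.memL (Primrec.fst.comp Primrec.snd) (Primrec.const _))) (fun y => by
            by_cases hy : ∃ s i, FR (parU n) e s y i
            · obtain ⟨s, i, h⟩ := hy
              exact ⟨s, i, Or.inl h⟩
            · refine ⟨0, 0, Or.inr ?_⟩
              rw [Finset.mem_toList, Set.Finite.mem_toFinset]
              exact hy)
    have hfin : {y | ¬ mu (parU n) n y = β (g y)}.Finite := by
      apply hT.subset
      intro y hy
      obtain ⟨s, hs⟩ := h3 y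
      rcases hs with h5 | h5
      · exact absurd (fr_ok hO h5).symm hy
      · rwa [Finset.mem_toList, Set.Finite.mem_toFinset] at h5
    obtain ⟨g', hg', h4⟩ := patch (Q := fun y i => mu (parU n) n y = β i) hg hfin (fun y => by
      obtain ⟨X, hX⟩ := mu_eq_nu (parU_ok n) y
      rw [hX]
      exact hβ' X)
    exact ⟨g', hg', h4⟩

/-! ### The two numberings are `0'`-equivalent -/

/-- the identifier of the class of the agent `α` at stage `s` -/
noncomputable def idAt (n s α : ℕ) : ℕ :=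
  ((loc (st (parU n) s).1 α).map fun p => p.1.id).getD 0

lemma idAt_primrec (n : ℕ) {γ : Type} [Primcodable γ] {s α : γ → ℕ} (hs : Primrec s)
    (hα : Primrec α) : Primrec fun a => idAt n (s a) (α a) := by
  unfold idAt
  refine Primrec.option_getD.comp (Primrec.option_map
    (Pr.loc (Pr.stc (parU_prim n) hs) hα) ?_) (Primrec.const 0)
  exact Pr.id.comp (Primrec.fst.comp Primrec.snd)

lemma idAt_limit (n α : ℕ) : ∃ s₀, ∀ s ≥ s₀, idAt n s α = (fc (parU_ok n) α).id := by
  obtain ⟨s₀, h⟩ := fc_spec (parU_ok n) α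
  refine ⟨s₀, fun s hs => ?_⟩
  unfold idAt
  rw [loc_of_mem (inv (parU n) s) (h s hs).1 (h s hs).2]
  rfl

lemma nu_jumpRed_mu (n : ℕ) : JumpRed (nu (parU n) n) (mu (parU n) n) := by
  refine ⟨fun X => 2 * (fc (parU_ok n) (3 * X)).id, ?_, fun X => ?_⟩
  · refine limit_lemma (g := fun X s => 2 * idAt n s (3 * X)) ?_ fun X => ?_
    · exact (Primrec.nat_mul.comp (Primrec.const 2) (idAt_primrec n Primrec.snd
        (Primrec.nat_mul.comp (Primrec.const 3) Primrec.fst))).to_comp
    · obtain ⟨s₀, h⟩ := idAt_limit n (3 * X)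
      exact ⟨s₀, fun s hs => by rw [h s hs]⟩
  · unfold nu mu
    have h1 : ag (2 * (fc (parU_ok n) (3 * X)).id) = 3 * (fc (parU_ok n) (3 * X)).id + 1 := by
      unfold ag; omega
    rw [h1]
    exact F_eq_of_mem (parU_ok n) (fc_FC (parU_ok n) _) (fc_mem (parU_ok n) _)
      (fc_FC (parU_ok n) _).mu_mem

lemma ag_primrec : Primrec ag := by
  unfold ag
  exact Primrec.nat_add.comp (Primrec.nat_add.comp (Primrec.nat_mul.comp (Primrec.const 3)
    (Primrec.nat_div.comp Primrec.id (Primrec.const 2))) (Primrec.const 1))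
    (Primrec.nat_mod.comp Primrec.id (Primrec.const 2))

lemma mu_jumpRed_nu (n : ℕ) : JumpRed (mu (parU n) n) (nu (parU n) n) := by
  refine ⟨fun y => (fc (parU_ok n) (ag y)).id, ?_, fun y => ?_⟩
  · refine limit_lemma (g := fun y s => idAt n s (ag y)) ?_ fun y => ?_
    · exact (idAt_primrec n Primrec.snd (ag_primrec.comp Primrec.fst)).to_comp
    · exact idAt_limit n (ag y)
  · exact F_eq_of_mem (parU_ok n) (fc_FC (parU_ok n) _) (fc_mem (parU_ok n) _)
      (fc_FC (parU_ok n) _).nu_mem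

lemma Red.refl (α : ℕ → Set ℕ) : Red α α := ⟨id, Computable.id, fun _ => rfl⟩

lemma Red.trans {α β γ : ℕ → Set ℕ} (h : Red α β) (h' : Red β γ) : Red α γ := by
  obtain ⟨f, hf, h1⟩ := h
  obtain ⟨g, hg, h2⟩ := h'
  exact ⟨fun k => g (f k), hg.comp hf, fun k => by rw [h1, h2]⟩

lemma class_eq {α β : ℕ → Set ℕ} (h : Equiv α β) :
    {γ | Equiv γ α} = {γ | Equiv γ β} := by
  ext γ
  exact ⟨fun h1 => ⟨h1.1.trans h.1, h.2.trans h1.2⟩, fun h1 => ⟨h1.1.trans h.2, h.1.trans h1.2⟩⟩

/-- For every `n ≥ 2` there is a family `A` of `n`-c.e. sets with two `0'`-equivalent and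
inequivalent `Σ⁻¹_n`-computable minimal numberings `α`, `β` such that every `Σ⁻¹_n`-computable
minimal numbering of `A` is equivalent to `α` or to `β`; so the `Σ⁻¹_n`-computable minimal
numberings of `A` form exactly two classes. -/
theorem result (n : ℕ) (hn : 2 ≤ n) :
    ∃ A : Set (Set ℕ), (∀ S ∈ A, IsNCE n S) ∧
      ∃ α β : ℕ → Set ℕ,
        (CompNumbering n A α ∧ Minimal A α) ∧ (CompNumbering n A β ∧ Minimal A β) ∧
        JumpEquiv α β ∧ ¬ Equiv α β ∧
        (∀ γ, CompNumbering n A γ → Minimal A γ → Equiv γ α ∨ Equiv γ β) ∧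
        (minimalClasses n A).encard = 2 := by
  set A : Set (Set ℕ) := Set.range (nu (parU n) n) with hA
  have hnu : IsNCE n {z | (Nat.unpair z).1 ∈ nu (parU n) n (Nat.unpair z).2} :=
    nce_F hn (a := fun X => 3 * X) (Pr.mul (Pr.cst 3) Primrec.id)
  have hmu : IsNCE n {z | (Nat.unpair z).1 ∈ mu (parU n) n (Nat.unpair z).2} :=
    nce_F hn (a := ag) (Pr.ag Primrec.id)
  have hr : Set.range (mu (parU n) n) = A := by
    rw [hA]
    ext S
    constructor
    · rintro ⟨y, rfl⟩
      obtain ⟨X, hX⟩ := mu_eq_nu (parU_ok n) y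
      exact ⟨X, hX.symm⟩
    · rintro ⟨X, rfl⟩
      obtain ⟨y, hy⟩ := nu_eq_mu (parU_ok n) X
      exact ⟨y, hy.symm⟩
  have hνc : CompNumbering n A (nu (parU n) n) := ⟨rfl, nce_swap' hnu⟩
  have hμc : CompNumbering n A (mu (parU n) n) := ⟨hr, nce_swap' hmu⟩
  have hνμ : ¬ Red (nu (parU n) n) (mu (parU n) n) := nu_not_red_mu hn
  have hdich : ∀ β, CompNumbering n A β →
      (Red β (nu (parU n) n) ∧ Red (nu (parU n) n) β) ∨ Red (mu (parU n) n) β :=
    fun β hβ => dichotomy hn hβ
  have hμν : ¬ Red (mu (parU n) n) (nu (parU n) n) := fun h =>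
    mu_not_positive hn (REPred.of_red h (nu_positive hn))
  have hminν : Minimal A (nu (parU n) n) := by
    refine ⟨rfl, fun β hβ hle => ?_⟩
    rcases hdich β (hνc.of_red hβ hle) with h | h
    · exact h.2
    · exact absurd (h.trans hle) hμν
  have hminμ : Minimal A (mu (parU n) n) := by
    refine ⟨hr, fun β hβ hle => ?_⟩
    rcases hdich β (hμc.of_red hβ hle) with h | h
    · exact absurd (h.2.trans hle) hνμ
    · exact h
  have hne : ¬ Equiv (nu (parU n) n) (mu (parU n) n) := fun h => hνμ h.1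
  have hall : ∀ γ, CompNumbering n A γ → Minimal A γ →
      Equiv γ (nu (parU n) n) ∨ Equiv γ (mu (parU n) n) := by
    intro γ hγ hmin
    rcases hdich γ hγ with h | h
    · exact Or.inl h
    · exact Or.inr ⟨hmin.2 _ hr h, h⟩
  refine ⟨A, ?_, nu (parU n) n, mu (parU n) n, ⟨hνc, hminν⟩, ⟨hμc, hminμ⟩,
    ⟨nu_jumpRed_mu n, mu_jumpRed_nu n⟩, hne, hall, ?_⟩
  · rintro S ⟨X, rfl⟩
    have h1 : Computable fun x : ℕ => Nat.pair x X :=
      (Primrec₂.natPair.comp Primrec.id (Primrec.const X)).to_comp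
    have h2 := nce_preimage hnu h1
    have h3 : (fun x : ℕ => Nat.pair x X) ⁻¹'
        {z | (Nat.unpair z).1 ∈ nu (parU n) n (Nat.unpair z).2} = nu (parU n) n X := by
      ext x
      simp
    rwa [h3] at h2
  · have hset : minimalClasses n A =
        {{γ | Equiv γ (nu (parU n) n)}, {γ | Equiv γ (mu (parU n) n)}} := by
      ext C
      constructor
      · rintro ⟨γ, h1, h2, rfl⟩
        rcases hall γ h1 h2 with h | h
        · exact Or.inl (class_eq h)
        · exact Or.inr (class_eq h)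
      · rintro (rfl | rfl)
        · exact ⟨_, hνc, hminν, rfl⟩
        · exact ⟨_, hμc, hminμ, rfl⟩
    rw [hset]
    refine Set.encard_pair fun h => hne ?_
    have h1 : nu (parU n) n ∈ {γ | Equiv γ (mu (parU n) n)} := by
      rw [← h]
      exact ⟨Red.refl _, Red.refl _⟩
    exact h1

end Pool.Agent.Results.MP_711492_lc.ErshovNegative
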