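import Mathlib

set_option autoImplicit false

namespace Pool.Agent.Results.MP_711492_lc.InfManyMinimal

open Nat.Partrec (Code)

/-- `IsSigma n P`: the set `P` of naturals is `Σ⁰ₙ`. Level `0` consists of the computable sets and
a set is `Σ⁰_{n+1}` iff it is the projection of the complement of a `Σ⁰ₙ` set. -/
def IsSigma : ℕ → (ℕ → Prop) → Prop
  | 0, P => ComputablePred P
  | n + 1, P => ∃ Q : ℕ → Prop, IsSigma n Q ∧ ∀ x, P x ↔ ∃ y, ¬ Q (Nat.pair x y)

/-- `α` is a `Σ⁰ₙ`-computable numbering of the family `A`. -/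
structure CompNumbering (n : ℕ) (A : Set (Set ℕ)) (α : ℕ → Set ℕ) : Prop where
  range_eq : Set.range α = A
  sigma : IsSigma n (fun z => z.unpair.2 ∈ α z.unpair.1)

/-- `α` reduces to `β`. -/
def Red (α β : ℕ → Set ℕ) : Prop := ∃ f : ℕ → ℕ, Computable f ∧ ∀ x, α x = β (f x)

/-! ### Closure properties of the arithmetical hierarchy -/

theorem IsSigma.congr {n : ℕ} {P Q : ℕ → Prop} (h : IsSigma n P) (H : ∀ x, Q x ↔ P x) :
    IsSigma n Q := by
  have : Q = P := funext fun x => propext (H x)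
  rwa [this]

theorem IsSigma.comp {n : ℕ} : ∀ {P : ℕ → Prop}, IsSigma n P → ∀ {f : ℕ → ℕ}, Computable f →
    IsSigma n (fun x => P (f x)) := by
  induction n with
  | zero =>
    intro P hP f hf
    obtain ⟨_, hP⟩ := hP
    exact ⟨inferInstance, hP.comp hf⟩
  | succ n ih =>
    rintro P ⟨Q, hQ, hPQ⟩ f hf
    refine ⟨fun z => Q (Nat.pair (f z.unpair.1) z.unpair.2), ?_, fun x => ?_⟩
    · refine ih hQ (f := fun z => Nat.pair (f z.unpair.1) z.unpair.2) ?_
      exact Primrec₂.natPair.to_comp.comp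
        (hf.comp (Computable.fst.comp Computable.unpair)) (Computable.snd.comp Computable.unpair)
    · simp [hPQ]

theorem isSigma_and_or {n : ℕ} : ∀ {P Q : ℕ → Prop}, IsSigma n P → IsSigma n Q →
    IsSigma n (fun x => P x ∧ Q x) ∧ IsSigma n (fun x => P x ∨ Q x) := by
  induction n with
  | zero =>
    rintro P Q ⟨_, hP⟩ ⟨_, hQ⟩
    constructor
    · exact ⟨inferInstance, (Primrec.and.to_comp.comp hP hQ).of_eq fun x => by simp⟩
    · exact ⟨inferInstance, (Primrec.or.to_comp.comp hP hQ).of_eq fun x => by simp⟩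
  | succ n ih =>
    rintro P Q ⟨P', hP', hP⟩ ⟨Q', hQ', hQ⟩
    constructor
    · have h1 : IsSigma n (fun z => P' (Nat.pair z.unpair.1 z.unpair.2.unpair.1)) :=
        hP'.comp (f := fun z => Nat.pair z.unpair.1 z.unpair.2.unpair.1)
          (Primrec₂.natPair.to_comp.comp (Computable.fst.comp Computable.unpair)
            (Computable.fst.comp (Computable.unpair.comp
              (Computable.snd.comp Computable.unpair))))
      have h2 : IsSigma n (fun z => Q' (Nat.pair z.unpair.1 z.unpair.2.unpair.2)) :=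
        hQ'.comp (f := fun z => Nat.pair z.unpair.1 z.unpair.2.unpair.2)
          (Primrec₂.natPair.to_comp.comp (Computable.fst.comp Computable.unpair)
            (Computable.snd.comp (Computable.unpair.comp
              (Computable.snd.comp Computable.unpair))))
      refine ⟨_, (ih h1 h2).2, fun x => ?_⟩
      simp only [hP, hQ, Nat.unpair_pair, not_or]
      constructor
      · rintro ⟨⟨y, hy⟩, ⟨z, hz⟩⟩
        exact ⟨Nat.pair y z, by simpa using ⟨hy, hz⟩⟩
      · rintro ⟨y, hy, hz⟩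
        exact ⟨⟨_, hy⟩, ⟨_, hz⟩⟩
    · refine ⟨_, (ih hP' hQ').1, fun x => ?_⟩
      simp only [hP, hQ, not_and_or]
      exact exists_or.symm

theorem IsSigma.and {n : ℕ} {P Q : ℕ → Prop} (hP : IsSigma n P) (hQ : IsSigma n Q) :
    IsSigma n (fun x => P x ∧ Q x) := (isSigma_and_or hP hQ).1

theorem IsSigma.not_succ {n : ℕ} {P : ℕ → Prop} (hP : IsSigma n P) :
    IsSigma (n + 1) (fun x => ¬ P x) :=
  ⟨fun z => P z.unpair.1, hP.comp (Computable.fst.comp Computable.unpair), fun x => by simp⟩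

theorem IsSigma.succ {n : ℕ} : ∀ {P : ℕ → Prop}, IsSigma n P → IsSigma (n + 1) P := by
  induction n with
  | zero =>
    intro P hP
    have h : IsSigma 0 (fun x => ¬ P x) := ComputablePred.not hP
    exact h.not_succ.congr fun x => by simp
  | succ n ih =>
    rintro P ⟨Q, hQ, hPQ⟩
    exact ⟨Q, ih hQ, hPQ⟩

theorem IsSigma.mono {m n : ℕ} (hmn : m ≤ n) {P : ℕ → Prop} (hP : IsSigma m P) : IsSigma n P := by
  induction hmn with
  | refl => exact hP
  | step _ ih => exact ih.succ

theorem IsSigma.ex {n : ℕ} {P : ℕ → Prop} (hP : IsSigma (n + 1) P) :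
    IsSigma (n + 1) (fun x => ∃ y, P (Nat.pair x y)) := by
  obtain ⟨Q, hQ, hPQ⟩ := hP
  refine ⟨fun z => Q (Nat.pair (Nat.pair z.unpair.1 z.unpair.2.unpair.1) z.unpair.2.unpair.2),
    ?_, fun x => ?_⟩
  · exact hQ.comp (f := fun z =>
        Nat.pair (Nat.pair z.unpair.1 z.unpair.2.unpair.1) z.unpair.2.unpair.2)
      (Primrec₂.natPair.to_comp.comp
        (Primrec₂.natPair.to_comp.comp (Computable.fst.comp Computable.unpair)
          (Computable.fst.comp (Computable.unpair.comp (Computable.snd.comp Computable.unpair))))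
        (Computable.snd.comp (Computable.unpair.comp (Computable.snd.comp Computable.unpair))))
  · simp only [hPQ, Nat.unpair_pair]
    constructor
    · rintro ⟨y, z, h⟩
      exact ⟨Nat.pair y z, by simpa using h⟩
    · rintro ⟨y, h⟩
      exact ⟨_, _, h⟩

/-- Sanity check: level one of the hierarchy is the class of c.e. sets. -/
theorem isSigma_one_iff (P : ℕ → Prop) : IsSigma 1 P ↔ REPred P := by
  constructor
  · rintro ⟨Q, hQ, hPQ⟩
    obtain ⟨_, hQ⟩ := hQ
    have h : Partrec (fun x : ℕ => Nat.rfind fun y => Part.some (!decide (Q (Nat.pair x y)))) := by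
      refine Partrec.rfind ?_
      have : Computable (fun p : ℕ × ℕ => !decide (Q (Nat.pair p.1 p.2))) :=
        Primrec.not.to_comp.comp (hQ.comp (Primrec₂.natPair.to_comp.comp
          Computable.fst Computable.snd))
      exact this.partrec
    refine h.dom_re.of_eq fun x => ?_
    rw [Nat.rfind_dom, hPQ]
    simp
  · intro h
    obtain ⟨c, hc⟩ := Code.exists_code.1
      (Partrec.nat_iff.1 (h.map (Computable.const 0).to₂ : Partrec fun x => _))
    refine ⟨fun z => ¬ (Code.evaln z.unpair.2 c z.unpair.1).isSome = true, ?_, fun x => ?_⟩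
    · have h2 : Primrec (fun z : ℕ => Code.evaln z.unpair.2 c z.unpair.1) :=
        Code.primrec_evaln.comp (((Primrec.snd.comp Primrec.unpair).pair (Primrec.const c)).pair
          (Primrec.fst.comp Primrec.unpair))
      exact ComputablePred.not (PrimrecPred.computablePred (Primrec.eq.comp
        (Primrec.option_isSome.comp h2) (Primrec.const true)))
    · have h1 : P x ↔ (c.eval x).Dom := by
        rw [hc]; simp [Part.assert]
      rw [h1, Part.dom_iff_mem]
      simp only [Nat.unpair_pair, not_not]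
      constructor
      · rintro ⟨v, hv⟩
        obtain ⟨s, hs⟩ := Code.evaln_complete.1 hv
        exact ⟨s, Option.isSome_iff_exists.2 ⟨v, hs⟩⟩
      · rintro ⟨s, hs⟩
        obtain ⟨v, hv⟩ := Option.isSome_iff_exists.1 hs
        exact ⟨v, Code.evaln_sound hv⟩

/-! ### The stage construction -/

/-- stage `s` of the `e`-th c.e. set -/
def W (s e y : ℕ) : Bool := (Code.evaln s (Denumerable.ofNat Code e) y).isSome

theorem W_lt {s e y : ℕ} (h : W s e y = true) : y < s := by
  unfold W at h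
  obtain ⟨v, hv⟩ := Option.isSome_iff_exists.1 h
  exact Code.evaln_bound hv

theorem W_mono {s t e y : ℕ} (hst : s ≤ t) (h : W s e y = true) : W t e y = true := by
  unfold W at h ⊢
  obtain ⟨v, hv⟩ := Option.isSome_iff_exists.1 h
  exact Option.isSome_iff_exists.2 ⟨v, Code.evaln_mono hst hv⟩

/-- collapse class number `j` into class number `k < j` -/
def stp (p : ℕ × ℕ) (v : ℕ) : ℕ := if v < p.2 then v else if v = p.2 then p.1 else v - 1

def app (H : List (ℕ × ℕ)) (x : ℕ) : ℕ := H.foldl (fun v p => stp p v) x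

theorem app_concat (H : List (ℕ × ℕ)) (p : ℕ × ℕ) (x : ℕ) :
    app (H ++ [p]) x = stp p (app H x) := by simp [app]

def ee (s : ℕ) : ℕ := s.unpair.1.unpair.1
def kk (s : ℕ) : ℕ := s.unpair.1.unpair.2.unpair.1
def xx (s : ℕ) : ℕ := s.unpair.1.unpair.2.unpair.2

def Cnd (s : ℕ) (H : List (ℕ × ℕ)) : Prop :=
  ((ee s ≤ kk s ∧ W s (ee s) (xx s) = true) ∧ kk s < app H (xx s)) ∧
    ∀ y < s, ¬ (W s (ee s) y = true ∧ app H y = kk s)

instance (s : ℕ) (H : List (ℕ × ℕ)) : Decidable (Cnd s H) := by unfold Cnd; infer_instance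

def nxt (s : ℕ) (H : List (ℕ × ℕ)) : List (ℕ × ℕ) :=
  if Cnd s H then H ++ [(kk s, app H (xx s))] else H

def hist (s : ℕ) : List (ℕ × ℕ) := Nat.rec [] (fun s H => nxt s H) s

/-- class number of `x` at stage `s` -/
def fs (s x : ℕ) : ℕ := app (hist s) x

theorem primrec_ee : Primrec ee :=
  Primrec.fst.comp (Primrec.unpair.comp (Primrec.fst.comp Primrec.unpair))
theorem primrec_kk : Primrec kk :=
  Primrec.fst.comp (Primrec.unpair.comp (Primrec.snd.comp (Primrec.unpair.comp
    (Primrec.fst.comp Primrec.unpair))))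
theorem primrec_xx : Primrec xx :=
  Primrec.snd.comp (Primrec.unpair.comp (Primrec.snd.comp (Primrec.unpair.comp
    (Primrec.fst.comp Primrec.unpair))))

theorem primrec_W : Primrec (fun p : ℕ × ℕ × ℕ => W p.1 p.2.1 p.2.2) := by
  unfold W
  refine Primrec.option_isSome.comp ?_
  exact Code.primrec_evaln.comp
    ((Primrec.fst.pair ((Primrec.ofNat Code).comp (Primrec.fst.comp Primrec.snd))).pair
      (Primrec.snd.comp Primrec.snd))

theorem primrec_stp : Primrec₂ stp := by
  unfold stp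
  refine Primrec.ite (Primrec.nat_lt.comp Primrec.snd (Primrec.snd.comp Primrec.fst))
    Primrec.snd (Primrec.ite (Primrec.eq.comp Primrec.snd (Primrec.snd.comp Primrec.fst))
      (Primrec.fst.comp Primrec.fst) (Primrec.nat_sub.comp Primrec.snd (Primrec.const 1)))

theorem primrec_app : Primrec₂ app := by
  unfold app
  exact Primrec.list_foldl Primrec.fst Primrec.snd
    (primrec_stp.comp (Primrec.snd.comp Primrec.snd) (Primrec.fst.comp Primrec.snd)).to₂

theorem primrec_Cnd : PrimrecPred (fun p : ℕ × List (ℕ × ℕ) => Cnd p.1 p.2) := by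
  have e1 : Primrec (fun p : ℕ × List (ℕ × ℕ) => ee p.1) := primrec_ee.comp Primrec.fst
  have k1 : Primrec (fun p : ℕ × List (ℕ × ℕ) => kk p.1) := primrec_kk.comp Primrec.fst
  have x1 : Primrec (fun p : ℕ × List (ℕ × ℕ) => xx p.1) := primrec_xx.comp Primrec.fst
  have hW : Primrec (fun p : ℕ × List (ℕ × ℕ) => W p.1 (ee p.1) (xx p.1)) :=
    primrec_W.comp (Primrec.fst.pair (e1.pair x1))
  have ha : Primrec (fun p : ℕ × List (ℕ × ℕ) => app p.2 (xx p.1)) :=
    primrec_app.comp Primrec.snd x1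
  have c1 : PrimrecPred (fun p : ℕ × List (ℕ × ℕ) => ee p.1 ≤ kk p.1) := Primrec.nat_le.comp e1 k1
  have c2 : PrimrecPred (fun p : ℕ × List (ℕ × ℕ) => W p.1 (ee p.1) (xx p.1) = true) :=
    Primrec.eq.comp hW (Primrec.const true)
  have c3 : PrimrecPred (fun p : ℕ × List (ℕ × ℕ) => kk p.1 < app p.2 (xx p.1)) :=
    Primrec.nat_lt.comp k1 ha
  have r : PrimrecRel (fun (y : ℕ) (p : ℕ × List (ℕ × ℕ)) =>
      ¬ (W p.1 (ee p.1) y = true ∧ app p.2 y = kk p.1)) := by
    have d1 : PrimrecPred (fun q : ℕ × (ℕ × List (ℕ × ℕ)) => W q.2.1 (ee q.2.1) q.1 = true) :=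
      Primrec.eq.comp (primrec_W.comp ((Primrec.fst.comp Primrec.snd).pair
        ((e1.comp Primrec.snd).pair Primrec.fst))) (Primrec.const true)
    have d2 : PrimrecPred (fun q : ℕ × (ℕ × List (ℕ × ℕ)) => app q.2.2 q.1 = kk q.2.1) :=
      Primrec.eq.comp (primrec_app.comp (Primrec.snd.comp Primrec.snd) Primrec.fst)
        (k1.comp Primrec.snd)
    exact (d1.and d2).not
  have c4 : PrimrecPred (fun p : ℕ × List (ℕ × ℕ) =>
      ∀ y < p.1, ¬ (W p.1 (ee p.1) y = true ∧ app p.2 y = kk p.1)) := by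
    have := (PrimrecRel.forall_mem_list r).comp
      (Primrec.list_range.comp (Primrec.fst (α := ℕ) (β := List (ℕ × ℕ)))) Primrec.id
    exact this.of_eq fun p => by simp
  exact ((c1.and c2).and c3).and c4

theorem primrec_nxt : Primrec₂ nxt := by
  unfold nxt
  refine Primrec.ite primrec_Cnd ?_ Primrec.snd
  exact Primrec.list_concat.comp Primrec.snd ((primrec_kk.comp Primrec.fst).pair
    (primrec_app.comp Primrec.snd (primrec_xx.comp Primrec.fst)))

theorem primrec_hist : Primrec hist := by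
  unfold hist
  exact Primrec.nat_rec₁ [] primrec_nxt

theorem primrec_fs : Primrec₂ fs :=
  primrec_app.comp (primrec_hist.comp Primrec.fst) Primrec.snd

/-! ### Combinatorics of the construction -/

theorem hist_succ (s : ℕ) : hist (s + 1) = nxt s (hist s) := rfl

theorem fs_zero (x : ℕ) : fs 0 x = x := rfl

theorem fs_succ_of (s x : ℕ) (h : Cnd s (hist s)) :
    fs (s + 1) x = stp (kk s, fs s (xx s)) (fs s x) := by
  unfold fs
  rw [hist_succ, nxt, if_pos h, app_concat]

theorem fs_succ_not (s x : ℕ) (h : ¬ Cnd s (hist s)) : fs (s + 1) x = fs s x := by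
  unfold fs
  rw [hist_succ, nxt, if_neg h]

theorem Cnd_lt {s : ℕ} (h : Cnd s (hist s)) : kk s < fs s (xx s) := h.1.2

theorem stp_le {k j : ℕ} (h : k < j) (v : ℕ) : stp (k, j) v ≤ v := by
  unfold stp; dsimp only; split_ifs <;> omega

theorem stp_of_le {k j v : ℕ} (h : k < j) (hv : v ≤ k) : stp (k, j) v = v := by
  unfold stp; dsimp only; split_ifs <;> omega

theorem stp_surj {k j : ℕ} (u : ℕ) : ∃ v, stp (k, j) v = u := by
  by_cases hu : u < j
  · exact ⟨u, by unfold stp; dsimp only; split_ifs; rfl⟩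
  · exact ⟨u + 1, by unfold stp; dsimp only; split_ifs <;> omega⟩

theorem fs_succ_le (s x : ℕ) : fs (s + 1) x ≤ fs s x := by
  by_cases h : Cnd s (hist s)
  · rw [fs_succ_of s x h]; exact stp_le (Cnd_lt h) _
  · rw [fs_succ_not s x h]

theorem fs_anti {s t : ℕ} (h : s ≤ t) (x : ℕ) : fs t x ≤ fs s x := by
  induction h with
  | refl => exact le_rfl
  | step _ ih => exact (fs_succ_le _ _).trans ih

theorem fs_surj (s : ℕ) : ∀ u, ∃ x, fs s x = u := by
  induction s with
  | zero => exact fun u => ⟨u, fs_zero u⟩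
  | succ s ih =>
    intro u
    by_cases h : Cnd s (hist s)
    · obtain ⟨v, hv⟩ := stp_surj (k := kk s) (j := fs s (xx s)) u
      obtain ⟨x, hx⟩ := ih v
      exact ⟨x, by rw [fs_succ_of s x h, hx, hv]⟩
    · obtain ⟨x, hx⟩ := ih u
      exact ⟨x, by rw [fs_succ_not s x h, hx]⟩

theorem fs_eq_mono {s t x y : ℕ} (h : s ≤ t) (e : fs s x = fs s y) : fs t x = fs t y := by
  induction h with
  | refl => exact e
  | @step m _ ih =>
    by_cases h : Cnd m (hist m)
    · rw [fs_succ_of m x h, fs_succ_of m y h, ih]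
    · rw [fs_succ_not m x h, fs_succ_not m y h, ih]

/-- if all actions from stage `s` on have target `≥ k` then class `k` only grows -/
theorem fs_keep {s k : ℕ} (hs : ∀ t, s ≤ t → Cnd t (hist t) → k ≤ kk t) {x v : ℕ} (hv : v ≤ k)
    (hx : fs s x = v) : ∀ t, s ≤ t → fs t x = v := by
  intro t ht
  induction ht with
  | refl => exact hx
  | @step m hm ih =>
    by_cases h : Cnd m (hist m)
    · rw [fs_succ_of m x h, ih]
      exact stp_of_le (Cnd_lt h) (hv.trans (hs m hm h))
    · rw [fs_succ_not m x h, ih]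

theorem finite_actions (k : ℕ) : ∃ s, ∀ t, s ≤ t → Cnd t (hist t) → k ≤ kk t := by
  induction k with
  | zero => exact ⟨0, fun t _ _ => Nat.zero_le _⟩
  | succ k ih =>
    obtain ⟨s₀, hs₀⟩ := ih
    -- each requirement acts at most once for target `k` after `s₀`
    have key : ∀ t u, s₀ ≤ t → t < u → Cnd t (hist t) → Cnd u (hist u) → kk t = k → kk u = k →
        ee t ≠ ee u := by
      intro t u ht htu ct cu kt ku he
      have h1 : W t (ee t) (xx t) = true := ct.1.1.2
      have h2 : fs (t + 1) (xx t) = k := by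
        rw [fs_succ_of t _ ct, ← kt]
        have := Cnd_lt ct
        unfold stp; dsimp only; split_ifs <;> omega
      have h3 : fs u (xx t) = k :=
        fs_keep (s := t + 1) (k := k) (fun v hv cv => hs₀ v (by omega) cv) le_rfl h2 u (by omega)
      exact cu.2 (xx t) ((W_lt h1).trans htu) ⟨he ▸ W_mono htu.le h1, h3.trans ku.symm⟩
    by_contra hcon
    push Not at hcon
    -- infinitely many stages with target `k`
    have hinf : ∀ s, ∃ t, s ≤ t ∧ s₀ ≤ t ∧ Cnd t (hist t) ∧ kk t = k := by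
      intro s
      obtain ⟨t, ht, ct, kt⟩ := hcon (max s s₀)
      have := hs₀ t ((le_max_right _ _).trans ht) ct
      exact ⟨t, (le_max_left _ _).trans ht, (le_max_right _ _).trans ht, ct, by omega⟩
    let S : Set ℕ := {t | s₀ ≤ t ∧ Cnd t (hist t) ∧ kk t = k}
    have hS : S.Infinite := by
      refine Set.infinite_of_not_bddAbove ?_
      rintro ⟨B, hB⟩
      obtain ⟨t, ht, h0, ct, kt⟩ := hinf (B + 1)
      have := hB (a := t) ⟨h0, ct, kt⟩
      omega
    have hfin : (ee '' S).Finite := (Set.finite_le_nat k).subset (by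
      rintro _ ⟨t, ⟨_, ct, kt⟩, rfl⟩
      exact (ct.1.1.1).trans kt.le)
    have hinj : Set.InjOn ee S := by
      rintro t ⟨ht, ct, kt⟩ u ⟨hu, cu, ku⟩ he
      rcases lt_trichotomy t u with h | h | h
      · exact absurd he (key t u ht h ct cu kt ku)
      · exact h
      · exact absurd he.symm (key u t hu h cu ct ku kt)
    exact hS (Set.Finite.of_finite_image hfin hinj)

theorem exists_limit (x : ℕ) : ∃ s, ∀ t, s ≤ t → fs t x = fs s x := by
  obtain ⟨s, hs⟩ : ∃ s, ∀ t, fs s x ≤ fs t x := by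
    let S : Set ℕ := Set.range (fun s => fs s x)
    obtain ⟨s, hs⟩ := Nat.sInf_mem (s := S) ⟨_, ⟨0, rfl⟩⟩
    exact ⟨s, fun t => by
      have : sInf S ≤ fs t x := Nat.sInf_le ⟨t, rfl⟩
      exact hs.le.trans this⟩
  exact ⟨s, fun t ht => le_antisymm (fs_anti ht x) (hs t)⟩

/-- final class number -/
noncomputable def F (x : ℕ) : ℕ := fs (exists_limit x).choose x

theorem fs_eq_F (x : ℕ) : ∃ s, ∀ t, s ≤ t → fs t x = F x :=
  ⟨_, (exists_limit x).choose_spec⟩

theorem F_le (s x : ℕ) : F x ≤ fs s x := by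
  obtain ⟨t, ht⟩ := fs_eq_F x
  rw [← ht (max s t) (le_max_right _ _)]
  exact fs_anti (le_max_left _ _) x

theorem F_eq_of {x v s : ℕ} (h : ∀ t, s ≤ t → fs t x = v) : F x = v := by
  obtain ⟨t, ht⟩ := fs_eq_F x
  rw [← ht (max s t) (le_max_right _ _), h _ (le_max_left _ _)]

theorem F_eq_iff {x y : ℕ} : F x = F y ↔ ∃ s, fs s x = fs s y := by
  obtain ⟨s, hs⟩ := fs_eq_F x
  obtain ⟨t, ht⟩ := fs_eq_F y
  constructor
  · intro h
    exact ⟨max s t, by rw [hs _ (le_max_left _ _), ht _ (le_max_right _ _), h]⟩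
  · rintro ⟨u, hu⟩
    have := fs_eq_mono (le_max_left u (max s t)) hu
    rwa [hs _ ((le_max_left _ _).trans (le_max_right _ _)),
      ht _ ((le_max_right _ _).trans (le_max_right _ _))] at this

theorem F_surj (k : ℕ) : ∃ x, F x = k := by
  obtain ⟨s, hs⟩ := finite_actions k
  obtain ⟨x, hx⟩ := fs_surj s k
  exact ⟨x, F_eq_of (s := s) (fs_keep hs le_rfl hx)⟩

/-- if the `e`-th c.e. set meets a class with number `> k ≥ e` then it meets class `k` -/
theorem meets {e k x : ℕ} (hek : e ≤ k) (hx : ∃ s, W s e x = true) (hkx : k < F x) :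
    ∃ y, (∃ s, W s e y = true) ∧ F y = k := by
  by_contra hcon
  push Not at hcon
  obtain ⟨s₀, hs₀⟩ := finite_actions (k + 1)
  obtain ⟨s₁, hs₁⟩ := hx
  let s := Nat.pair (Nat.pair e (Nat.pair k x)) (max s₀ s₁)
  have hs : max s₀ s₁ ≤ s := Nat.right_le_pair _ _
  have h0 : s₀ ≤ s := (le_max_left _ _).trans hs
  have h1 : s₁ ≤ s := (le_max_right _ _).trans hs
  have e1 : ee s = e := by simp [s, ee]
  have k1 : kk s = k := by simp [s, kk]
  have x1 : xx s = x := by simp [s, xx]
  have hc : Cnd s (hist s) := by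
    refine ⟨⟨⟨by rw [e1, k1]; exact hek, by rw [e1, x1]; exact W_mono h1 hs₁⟩, ?_⟩, ?_⟩
    · rw [k1, x1]; exact hkx.trans_le (F_le s x)
    · rintro y _ ⟨hy, hyk⟩
      rw [e1] at hy
      rw [k1] at hyk
      refine hcon y ⟨s, hy⟩ (F_eq_of (s := s) ?_)
      exact fs_keep (k := k) (fun t ht ct => by have := hs₀ t (h0.trans ht) ct; omega) le_rfl hyk
  have := hs₀ s h0 hc
  omega

/-! ### Numberings -/

theorem CompNumbering.comp {n : ℕ} {A : Set (Set ℕ)} {α : ℕ → Set ℕ} (hα : CompNumbering n A α)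
    {u : ℕ → ℕ} (hu : Computable u) (hr : Set.range (fun x => α (u x)) = A) :
    CompNumbering n A (fun x => α (u x)) := by
  refine ⟨hr, ?_⟩
  have := hα.sigma.comp (f := fun z => Nat.pair (u z.unpair.1) z.unpair.2)
    (Primrec₂.natPair.to_comp.comp
      (hu.comp (Computable.fst.comp Computable.unpair)) (Computable.snd.comp Computable.unpair))
  exact this.congr fun x => by simp

/-- `α ∘ D` is `Σ⁰ₙ` for `n ≥ 2` whenever `D` is the limit of a computable sequence. -/
theorem sigma_comp_lim {n : ℕ} (hn : 2 ≤ n) {α : ℕ → Set ℕ}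
    (h : IsSigma n (fun z => z.unpair.2 ∈ α z.unpair.1)) {g : ℕ → ℕ → ℕ} {D : ℕ → ℕ}
    (hg : Computable₂ g) (hD : ∀ x, ∃ s, ∀ t, s ≤ t → g t x = D x) :
    IsSigma n (fun z => z.unpair.2 ∈ α (D z.unpair.1)) := by
  obtain ⟨m, rfl⟩ : ∃ m, n = m + 1 := ⟨n - 1, by omega⟩
  -- the predicate `g (s + t) x = k` on coded arguments
  have h0 : IsSigma 0 (fun u : ℕ =>
      g (u.unpair.1.unpair.2.unpair.2 + u.unpair.2) u.unpair.1.unpair.1.unpair.1
        = u.unpair.1.unpair.2.unpair.1) := by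
    have U := Computable.unpair
    have f1 : Computable (fun u : ℕ => u.unpair.1) := Computable.fst.comp U
    have f2 : Computable (fun u : ℕ => u.unpair.2) := Computable.snd.comp U
    refine Computable.computablePred ((Primrec.eq (α := ℕ)).decide.to_comp.comp
      (hg.comp ?_ ?_) ?_)
    · exact Primrec.nat_add.to_comp.comp (f2.comp (f2.comp f1)) f2
    · exact f1.comp (f1.comp f1)
    · exact f1.comp (f2.comp f1)
  have h1 : IsSigma 1 (fun v : ℕ => ∃ t, ¬
      (g (v.unpair.2.unpair.2 + t) v.unpair.1.unpair.1 = v.unpair.2.unpair.1)) :=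
    ⟨_, h0, fun v => by simp⟩
  have h2 : IsSigma (m + 1) (fun v : ℕ => ¬ ∃ t, ¬
      (g (v.unpair.2.unpair.2 + t) v.unpair.1.unpair.1 = v.unpair.2.unpair.1)) :=
    h1.not_succ.mono hn
  have h3 : IsSigma (m + 1) (fun v : ℕ => v.unpair.1.unpair.2 ∈ α v.unpair.2.unpair.1) := by
    have := h.comp (f := fun v => Nat.pair v.unpair.2.unpair.1 v.unpair.1.unpair.2)
      (Primrec₂.natPair.comp
        (Primrec.fst.comp (Primrec.unpair.comp (Primrec.snd.comp Primrec.unpair)))
        (Primrec.snd.comp (Primrec.unpair.comp (Primrec.fst.comp Primrec.unpair)))).to_comp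
    exact this.congr fun v => by simp
  refine (h2.and h3).ex.congr fun z => ?_
  simp only [Nat.unpair_pair, not_exists, not_not]
  constructor
  · intro hz
    obtain ⟨s, hs⟩ := hD z.unpair.1
    exact ⟨Nat.pair (D z.unpair.1) s, by simpa using ⟨fun t => hs (s + t) (by omega), hz⟩⟩
  · rintro ⟨w, hw, hz⟩
    obtain ⟨s, hs⟩ := hD z.unpair.1
    have h1 := hw s
    have h2 := hs (w.unpair.2 + s) (by omega)
    rw [← h2, h1]; exact hz

theorem exists_index (g : ℕ → ℕ) (hg : Computable g) :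
    ∃ e, ∀ y, (∃ s, W s e y = true) ↔ ∃ i, g i = y := by
  have hp : Partrec (fun y : ℕ => Nat.rfind fun i => Part.some (decide (g i = y))) := by
    refine Partrec.rfind ?_
    have : Computable (fun p : ℕ × ℕ => decide (g p.2 = p.1)) :=
      (Primrec.eq (α := ℕ)).decide.to_comp.comp (hg.comp Computable.snd) Computable.fst
    exact this.partrec
  obtain ⟨c, hc⟩ := Code.exists_code.1 (Partrec.nat_iff.1 hp)
  refine ⟨Encodable.encode c, fun y => ?_⟩
  have h1 : (∃ s, W s (Encodable.encode c) y = true) ↔ (c.eval y).Dom := by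
    unfold W
    rw [Denumerable.ofNat_encode, Part.dom_iff_mem]
    constructor
    · rintro ⟨s, hs⟩
      obtain ⟨v, hv⟩ := Option.isSome_iff_exists.1 hs
      exact ⟨v, Code.evaln_sound hv⟩
    · rintro ⟨v, hv⟩
      obtain ⟨s, hs⟩ := Code.evaln_complete.1 hv
      exact ⟨s, Option.isSome_iff_exists.2 ⟨v, hs⟩⟩
  rw [h1, hc, Nat.rfind_dom]
  simp

/-- For every map `α` onto an infinite family, `α ∘ F` is a minimal numbering. -/
theorem minimal_comp_F {A : Set (Set ℕ)} {α : ℕ → Set ℕ}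
    (hα : Set.range α = A) (hA : A.Infinite) :
    Set.range (fun x => α (F x)) = A ∧
      ∀ γ : ℕ → Set ℕ, Set.range γ = A → Red γ (fun x => α (F x)) → Red (fun x => α (F x)) γ := by
  refine ⟨?_, ?_⟩
  · rw [← hα]
    ext B
    constructor
    · rintro ⟨x, rfl⟩; exact ⟨_, rfl⟩
    · rintro ⟨k, rfl⟩
      obtain ⟨x, hx⟩ := F_surj k
      exact ⟨x, by simp [hx]⟩
  · rintro γ hγ ⟨g, hg, hgγ⟩
    obtain ⟨e, he⟩ := exists_index g hg
    -- the class numbers hit by `g` are unbounded
    have hunb : ∀ k, ∃ i, k < F (g i) := by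
      intro k
      by_contra hcon
      push Not at hcon
      apply hA
      rw [← hγ]
      refine ((Set.finite_le_nat k).image α).subset ?_
      rintro _ ⟨i, rfl⟩
      exact ⟨F (g i), hcon i, (hgγ i).symm⟩
    have hmeet : ∀ k, e ≤ k → ∃ i, F (g i) = k := by
      intro k hk
      obtain ⟨i, hi⟩ := hunb k
      obtain ⟨y, hy, hyk⟩ := meets hk ((he _).2 ⟨i, rfl⟩) hi
      obtain ⟨j, rfl⟩ := (he y).1 hy
      exact ⟨j, hyk⟩
    choose a ha using F_surj
    have hex : ∀ k, ∃ y, γ y = α k := fun k => by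
      have : α k ∈ Set.range γ := by rw [hγ, ← hα]; exact ⟨k, rfl⟩
      exact this
    choose b hb using hex
    let la : List ℕ := (List.range e).map a
    let lb : List ℕ := (List.range e).map b
    let G : ℕ → ℕ := fun i => if i < e then la.getD i 0 else g (i - e)
    let Y : ℕ → ℕ := fun i => if i < e then lb.getD i 0 else i - e
    have cget : ∀ l : List ℕ, Computable (fun i : ℕ => l.getD i 0) := fun l =>
      ((Primrec.list_getD 0).comp (Primrec.const l) Primrec.id).to_comp
    have csub : Computable (fun i : ℕ => i - e) :=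
      (Primrec.nat_sub.comp Primrec.id (Primrec.const e)).to_comp
    have cc : ComputablePred (fun i : ℕ => i < e) :=
      PrimrecPred.computablePred (Primrec.nat_lt.comp Primrec.id (Primrec.const e))
    have hG : Computable G := ComputablePred.ite (cget la) (hg.comp csub) cc
    have hY : Computable Y := ComputablePred.ite (cget lb) csub cc
    have hGY : ∀ i, α (F (G i)) = γ (Y i) := by
      intro i
      by_cases hi : i < e
      · have h1 : G i = a i := by simp [G, la, hi]
        have h2 : Y i = b i := by simp [Y, lb, hi]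
        rw [h1, h2, ha, hb]
      · have h1 : G i = g (i - e) := by simp [G, hi]
        have h2 : Y i = i - e := by simp [Y, hi]
        rw [h1, h2, hgγ]
    have hall : ∀ x, ∃ i, F x = F (G i) := by
      intro x
      by_cases hx : F x < e
      · refine ⟨F x, ?_⟩
        have h1 : G (F x) = a (F x) := by simp [G, la, hx]
        rw [h1, ha]
      · obtain ⟨i, hi⟩ := hmeet (F x) (by omega)
        refine ⟨i + e, ?_⟩
        have h1 : G (i + e) = g i := by simp [G]
        rw [h1, hi]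
    have hsearch : ∀ x, ∃ w : ℕ, fs w.unpair.1 x = fs w.unpair.1 (G w.unpair.2) := by
      intro x
      obtain ⟨i, hi⟩ := hall x
      obtain ⟨s, hs⟩ := F_eq_iff.1 hi
      exact ⟨Nat.pair s i, by simpa using hs⟩
    have hcp : ComputablePred (fun p : ℕ × ℕ =>
        fs p.2.unpair.1 p.1 = fs p.2.unpair.1 (G p.2.unpair.2)) := by
      refine Computable.computablePred ?_
      have U : Computable (fun p : ℕ × ℕ => p.2.unpair) := Computable.unpair.comp Computable.snd
      exact (Primrec.eq (α := ℕ)).decide.to_comp.comp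
        (primrec_fs.to_comp.comp (Computable.fst.comp U) Computable.fst)
        (primrec_fs.to_comp.comp (Computable.fst.comp U) (hG.comp (Computable.snd.comp U)))
    refine ⟨fun x => Y (Nat.find (hsearch x)).unpair.2, ?_, fun x => ?_⟩
    · exact hY.comp (Computable.snd.comp (Computable.unpair.comp (Computable.find hcp hsearch)))
    · have h := Nat.find_spec (hsearch x)
      have h' : F x = F (G (Nat.find (hsearch x)).unpair.2) := F_eq_iff.2 ⟨_, h⟩
      rw [← hGY, ← h']

/-! ### Diagonalisation below the halting problem -/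

open Filter

/-- value of the finite assignment `L` at `(i, k)`, default `b` -/
def lk (b : ℕ) (L : List (ℕ × ℕ × ℕ)) (i k : ℕ) : ℕ :=
  L.foldl (fun v p => if p.1 = i ∧ p.2.1 = k then p.2.2 else v) b

theorem lk_concat (b : ℕ) (L : List (ℕ × ℕ × ℕ)) (p : ℕ × ℕ × ℕ) (i k : ℕ) :
    lk b (L ++ [p]) i k = if p.1 = i ∧ p.2.1 = k then p.2.2 else lk b L i k := by simp [lk]

/-- first element of class `a` at stage `s` -/
def X (s a : ℕ) : ℕ := (List.range s).findIdx (fun x => fs s x = a)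

/-- class number of `φ_e (X a)` at stage `s` -/
def cl (s e a : ℕ) : ℕ :=
  ((Code.evaln s (Denumerable.ofNat Code e) (X s a)).map (fs s)).getD 0

theorem primrec_X : Primrec₂ X := by
  unfold X
  refine Primrec.list_findIdx (Primrec.list_range.comp Primrec.fst) ?_
  exact (Primrec.eq (α := ℕ)).decide.comp (primrec_fs.comp (Primrec.fst.comp Primrec.fst)
    Primrec.snd) (Primrec.snd.comp Primrec.fst)

theorem primrec_cl : Primrec (fun p : ℕ × ℕ × ℕ => cl p.1 p.2.1 p.2.2) := by
  unfold cl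
  refine Primrec.option_getD.comp (Primrec.option_map (Code.primrec_evaln.comp
    ((Primrec.fst.pair ((Primrec.ofNat Code).comp (Primrec.fst.comp Primrec.snd))).pair
      (primrec_X.comp Primrec.fst (Primrec.snd.comp Primrec.snd))))
    (primrec_fs.comp (Primrec.fst.comp Primrec.fst) Primrec.snd)) (Primrec.const 0)

/-- the last `t ≤ M` such that location `M + t` is sent to a class `≥ M` -/
def Ac (c : ℕ → ℕ) (M : ℕ) : ℕ := Nat.findGreatest (fun t => M ≤ c (M + t)) M

/-- a pair of locations in `[M, 2M]` that are sent to the same class -/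
def Wc (c : ℕ → ℕ) (M : ℕ) : ℕ :=
  Nat.findGreatest (fun w => (w.unpair.1 < w.unpair.2 ∧ w.unpair.2 ≤ M) ∧
    c (M + w.unpair.1) = c (M + w.unpair.2)) ((M + 1) ^ 2)

def re (r : ℕ) : ℕ := r.unpair.1.unpair.1
def ri (r : ℕ) : ℕ := r.unpair.1.unpair.2
def rj (r : ℕ) : ℕ := r.unpair.2.unpair.1
def rm (r : ℕ) : ℕ := r.unpair.2.unpair.2

/-- the bound after one step -/
def nM (c : ℕ → ℕ) (M : ℕ) : ℕ := max (2 * M) (c (M + Ac c M)) + 1

/-- the diagonalising entry -/
def ent (b1 : ℕ) (c : ℕ → ℕ) (r M : ℕ) : ℕ × ℕ × ℕ :=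
  if M ≤ c (M + Ac c M) then (rj r, c (M + Ac c M), b1) else (ri r, M + (Wc c M).unpair.2, b1)

abbrev St := ℕ × List (ℕ × ℕ × ℕ)

def stepc (b1 : ℕ) (c : ℕ → ℕ) (r : ℕ) (σ : St) : St :=
  (nM c σ.1 + 1, (σ.2 ++ [ent b1 c r σ.1]) ++ [(ri r, nM c σ.1, rm r)])

def run (b1 s r : ℕ) : St := Nat.rec (0, []) (fun r σ => stepc b1 (cl s (re r)) r σ) r

theorem primrec_Ac : Primrec (fun p : ℕ × ℕ × ℕ => Ac (cl p.1 p.2.1) p.2.2) := by
  unfold Ac
  refine Primrec.nat_findGreatest (Primrec.snd.comp Primrec.snd) ?_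
  refine Primrec.nat_le.comp (Primrec.snd.comp (Primrec.snd.comp Primrec.fst)) ?_
  exact primrec_cl.comp ((Primrec.fst.comp Primrec.fst).pair
    ((Primrec.fst.comp (Primrec.snd.comp Primrec.fst)).pair
      (Primrec.nat_add.comp (Primrec.snd.comp (Primrec.snd.comp Primrec.fst)) Primrec.snd)))

theorem primrec_Wc : Primrec (fun p : ℕ × ℕ × ℕ => Wc (cl p.1 p.2.1) p.2.2) := by
  unfold Wc
  have hM : Primrec (fun q : (ℕ × ℕ × ℕ) × ℕ => q.1.2.2) :=
    Primrec.snd.comp (Primrec.snd.comp Primrec.fst)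
  have h1 : Primrec (fun q : (ℕ × ℕ × ℕ) × ℕ => q.2.unpair.1) :=
    Primrec.fst.comp (Primrec.unpair.comp Primrec.snd)
  have h2 : Primrec (fun q : (ℕ × ℕ × ℕ) × ℕ => q.2.unpair.2) :=
    Primrec.snd.comp (Primrec.unpair.comp Primrec.snd)
  have hc : ∀ {f : (ℕ × ℕ × ℕ) × ℕ → ℕ}, Primrec f →
      Primrec (fun q : (ℕ × ℕ × ℕ) × ℕ => cl q.1.1 q.1.2.1 (q.1.2.2 + f q)) := fun hf =>
    primrec_cl.comp ((Primrec.fst.comp Primrec.fst).pair
      ((Primrec.fst.comp (Primrec.snd.comp Primrec.fst)).pair (Primrec.nat_add.comp hM hf)))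
  refine Primrec.nat_findGreatest ?_ ?_
  · have hs : Primrec (fun p : ℕ × ℕ × ℕ => p.2.2 + 1) :=
      Primrec.succ.comp (Primrec.snd.comp Primrec.snd)
    exact (Primrec.nat_mul.comp hs hs).of_eq fun p => by simp [pow_two]
  · exact ((Primrec.nat_lt.comp h1 h2).and (Primrec.nat_le.comp h2 hM)).and
      (Primrec.eq.comp (hc h1) (hc h2))

theorem primrec_re : Primrec re :=
  Primrec.fst.comp (Primrec.unpair.comp (Primrec.fst.comp Primrec.unpair))
theorem primrec_ri : Primrec ri :=
  Primrec.snd.comp (Primrec.unpair.comp (Primrec.fst.comp Primrec.unpair))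
theorem primrec_rj : Primrec rj :=
  Primrec.fst.comp (Primrec.unpair.comp (Primrec.snd.comp Primrec.unpair))
theorem primrec_rm : Primrec rm :=
  Primrec.snd.comp (Primrec.unpair.comp (Primrec.snd.comp Primrec.unpair))

theorem primrec_step (b1 : ℕ) :
    Primrec (fun p : ℕ × ℕ × St => stepc b1 (cl p.1 (re p.2.1)) p.2.1 p.2.2) := by
  have hs : Primrec (fun p : ℕ × ℕ × St => p.1) := Primrec.fst
  have hr : Primrec (fun p : ℕ × ℕ × St => p.2.1) := Primrec.fst.comp Primrec.snd
  have hM : Primrec (fun p : ℕ × ℕ × St => p.2.2.1) :=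
    Primrec.fst.comp (Primrec.snd.comp Primrec.snd)
  have hL : Primrec (fun p : ℕ × ℕ × St => p.2.2.2) :=
    Primrec.snd.comp (Primrec.snd.comp Primrec.snd)
  have hA : Primrec (fun p : ℕ × ℕ × St => Ac (cl p.1 (re p.2.1)) p.2.2.1) :=
    primrec_Ac.comp (hs.pair ((primrec_re.comp hr).pair hM))
  have hW : Primrec (fun p : ℕ × ℕ × St => Wc (cl p.1 (re p.2.1)) p.2.2.1) :=
    primrec_Wc.comp (hs.pair ((primrec_re.comp hr).pair hM))
  have hc : Primrec (fun p : ℕ × ℕ × St =>
      cl p.1 (re p.2.1) (p.2.2.1 + Ac (cl p.1 (re p.2.1)) p.2.2.1)) :=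
    primrec_cl.comp (hs.pair ((primrec_re.comp hr).pair (Primrec.nat_add.comp hM hA)))
  have hnM : Primrec (fun p : ℕ × ℕ × St => nM (cl p.1 (re p.2.1)) p.2.2.1) := by
    unfold nM
    exact Primrec.succ.comp (Primrec.nat_max.comp (Primrec.nat_mul.comp (Primrec.const 2) hM) hc)
  have hent : Primrec (fun p : ℕ × ℕ × St => ent b1 (cl p.1 (re p.2.1)) p.2.1 p.2.2.1) := by
    unfold ent
    refine Primrec.ite (Primrec.nat_le.comp hM hc) ?_ ?_
    · exact (primrec_rj.comp hr).pair (hc.pair (Primrec.const b1))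
    · exact (primrec_ri.comp hr).pair ((Primrec.nat_add.comp hM
        (Primrec.snd.comp (Primrec.unpair.comp hW))).pair (Primrec.const b1))
  unfold stepc
  exact (Primrec.succ.comp hnM).pair (Primrec.list_concat.comp
    (Primrec.list_concat.comp hL hent)
    ((primrec_ri.comp hr).pair (hnM.pair (primrec_rm.comp hr))))

theorem primrec_run (b1 : ℕ) : Primrec₂ (run b1) := by
  unfold run
  have h : Primrec (fun q : (ℕ × ℕ) × ℕ × St =>
      stepc b1 (cl q.1.1 (re q.2.1)) q.2.1 q.2.2) :=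
    (primrec_step b1).comp ((Primrec.fst.comp Primrec.fst).pair
      ((Primrec.fst.comp Primrec.snd).pair (Primrec.snd.comp Primrec.snd)))
  have h0 : Primrec (fun _ : ℕ × ℕ => ((0, []) : St)) := Primrec.const _
  have h1 : Primrec (fun p : ℕ × ℕ => p.2) := Primrec.snd
  exact Primrec.nat_rec' (h := fun (p : ℕ × ℕ) (q : ℕ × St) => stepc b1 (cl p.1 (re q.1)) q.1 q.2)
    h1 h0 h.to₂

theorem primrec_lk (b : ℕ) :
    Primrec (fun p : List (ℕ × ℕ × ℕ) × ℕ × ℕ => lk b p.1 p.2.1 p.2.2) := by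
  unfold lk
  have h0 : Primrec (fun _ : List (ℕ × ℕ × ℕ) × ℕ × ℕ => b) := Primrec.const b
  have hL : Primrec (fun p : List (ℕ × ℕ × ℕ) × ℕ × ℕ => p.1) := Primrec.fst
  have he : Primrec (fun q : (List (ℕ × ℕ × ℕ) × ℕ × ℕ) × ℕ × ℕ × ℕ × ℕ => q.2.2) :=
    Primrec.snd.comp Primrec.snd
  have hh : Primrec₂ (fun (p : List (ℕ × ℕ × ℕ) × ℕ × ℕ) (q : ℕ × ℕ × ℕ × ℕ) =>
      if q.2.1 = p.2.1 ∧ q.2.2.1 = p.2.2 then q.2.2.2 else q.1) :=
    Primrec.ite ((Primrec.eq.comp (Primrec.fst.comp he)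
      (Primrec.fst.comp (Primrec.snd.comp Primrec.fst))).and
      (Primrec.eq.comp (Primrec.fst.comp (Primrec.snd.comp he))
        (Primrec.snd.comp (Primrec.snd.comp Primrec.fst))))
      (Primrec.snd.comp (Primrec.snd.comp he)) (Primrec.fst.comp Primrec.snd)
  exact Primrec.list_foldl hL h0 hh

/-! ### Limits -/

theorem X_lim (a : ℕ) : ∃ x, F x = a ∧ ∃ s, ∀ t, s ≤ t → X t a = x := by
  classical
  have hex := F_surj a
  refine ⟨Nat.find hex, Nat.find_spec hex, ?_⟩
  set x := Nat.find hex with hx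
  -- a stage after which all `y ≤ x` have their final class number
  have hst : ∃ s, ∀ t, s ≤ t → ∀ y ≤ x, fs t y = F y := by
    choose st hst using fs_eq_F
    refine ⟨(Finset.range (x + 1)).sup st, fun t ht y hy => hst y t ?_⟩
    exact (Finset.le_sup (Finset.mem_range.2 (by omega))).trans ht
  obtain ⟨s, hs⟩ := hst
  refine ⟨max s (x + 1), fun t ht => ?_⟩
  have h1 : s ≤ t := (le_max_left _ _).trans ht
  have h2 : x < t := (le_max_right _ _).trans ht
  unfold X
  rw [List.findIdx_eq (by simpa using h2)]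
  constructor
  · simp only [List.getElem_range, decide_eq_true_eq]
    rw [hs t h1 x le_rfl]
    exact Nat.find_spec hex
  · intro j hj
    simp only [List.getElem_range, decide_eq_false_iff_not]
    rw [hs t h1 j hj.le]
    exact Nat.find_min hex hj

theorem cl_lim (e a : ℕ) : ∃ v, ∃ s, ∀ t, s ≤ t → cl t e a = v := by
  obtain ⟨x, hx, s₀, hs₀⟩ := X_lim a
  by_cases h : ∃ s, (Code.evaln s (Denumerable.ofNat Code e) x).isSome
  · obtain ⟨s₁, h1⟩ := h
    obtain ⟨v, hv⟩ := Option.isSome_iff_exists.1 h1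
    obtain ⟨s₂, hs₂⟩ := fs_eq_F v
    refine ⟨F v, max s₀ (max s₁ s₂), fun t ht => ?_⟩
    have h0 : s₀ ≤ t := (le_max_left _ _).trans ht
    have h1 : s₁ ≤ t := (le_max_left _ _).trans ((le_max_right _ _).trans ht)
    have h2 : s₂ ≤ t := (le_max_right _ _).trans ((le_max_right _ _).trans ht)
    have h3 : Code.evaln t (Denumerable.ofNat Code e) x = some v := Code.evaln_mono h1 hv
    unfold cl
    rw [hs₀ t h0, h3]
    simp [hs₂ t h2]
  · refine ⟨0, s₀, fun t ht => ?_⟩
    unfold cl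
    rw [hs₀ t ht]
    have : Code.evaln t (Denumerable.ofNat Code e) x = none := by
      by_contra hne
      exact h ⟨t, Option.isSome_iff_ne_none.2 hne⟩
    simp [this]

/-- limiting class number -/
noncomputable def clL (e a : ℕ) : ℕ := (cl_lim e a).choose

theorem clL_spec (e a : ℕ) : ∃ s, ∀ t, s ≤ t → cl t e a = clL e a := (cl_lim e a).choose_spec

theorem clL_total {e : ℕ} {h : ℕ → ℕ} (he : ∀ x, (Denumerable.ofNat Code e).eval x = Part.some (h x))
    (a : ℕ) : ∃ x, F x = a ∧ clL e a = F (h x) := by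
  obtain ⟨x, hx, s₀, hs₀⟩ := X_lim a
  refine ⟨x, hx, ?_⟩
  obtain ⟨s₁, hs₁⟩ := clL_spec e a
  have hmem : h x ∈ (Denumerable.ofNat Code e).eval x := by rw [he]; exact Part.mem_some _
  obtain ⟨s₂, hs₂⟩ := Code.evaln_complete.1 hmem
  obtain ⟨s₃, hs₃⟩ := fs_eq_F (h x)
  let t := max (max s₀ s₁) (max s₂ s₃)
  have h0 : s₀ ≤ t := (le_max_left _ _).trans (le_max_left _ _)
  have h1 : s₁ ≤ t := (le_max_right _ _).trans (le_max_left _ _)
  have h2 : s₂ ≤ t := (le_max_left _ _).trans (le_max_right _ _)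
  have h3 : s₃ ≤ t := (le_max_right _ _).trans (le_max_right _ _)
  rw [← hs₁ t h1]
  have h4 : Code.evaln t (Denumerable.ofNat Code e) x = some (h x) := Code.evaln_mono h2 hs₂
  unfold cl
  rw [hs₀ t h0, h4]
  simp [hs₃ t h3]

theorem findGreatest_congr {P Q : ℕ → Prop} [DecidablePred P] [DecidablePred Q] {n : ℕ}
    (h : ∀ k ≤ n, P k ↔ Q k) : Nat.findGreatest P n = Nat.findGreatest Q n := by
  induction n with
  | zero => simp
  | succ n ih =>
    rw [Nat.findGreatest_succ, Nat.findGreatest_succ, ih fun k hk => h k (by omega)]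
    simp [h (n + 1) le_rfl]

theorem stepc_congr {b1 : ℕ} {c c' : ℕ → ℕ} {r : ℕ} {σ : St}
    (h : ∀ t ≤ σ.1, c (σ.1 + t) = c' (σ.1 + t)) : stepc b1 c r σ = stepc b1 c' r σ := by
  have hA : Ac c σ.1 = Ac c' σ.1 := findGreatest_congr fun t ht => by rw [h t ht]
  have hA' : Ac c' σ.1 ≤ σ.1 := Nat.findGreatest_le _
  have hW : Wc c σ.1 = Wc c' σ.1 := findGreatest_congr fun w _ => by
    constructor
    · rintro ⟨⟨h1, h2⟩, h3⟩
      exact ⟨⟨h1, h2⟩, by rw [← h _ (h1.le.trans h2), ← h _ h2, h3]⟩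
    · rintro ⟨⟨h1, h2⟩, h3⟩
      exact ⟨⟨h1, h2⟩, by rw [h _ (h1.le.trans h2), h _ h2, h3]⟩
  have hn : nM c σ.1 = nM c' σ.1 := by unfold nM; rw [hA, h _ hA']
  unfold stepc ent
  rw [hn, hA, hW, h _ hA']

/-- the limit of the runs -/
noncomputable def R (b1 r : ℕ) : St := Nat.rec (0, []) (fun r σ => stepc b1 (clL (re r)) r σ) r

theorem R_succ (b1 r : ℕ) : R b1 (r + 1) = stepc b1 (clL (re r)) r (R b1 r) := rfl

theorem run_succ (b1 s r : ℕ) : run b1 s (r + 1) = stepc b1 (cl s (re r)) r (run b1 s r) := rfl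

theorem run_lim (b1 r : ℕ) : ∃ s, ∀ t, s ≤ t → run b1 t r = R b1 r := by
  induction r with
  | zero => exact ⟨0, fun _ _ => rfl⟩
  | succ r ih =>
    obtain ⟨s₀, hs₀⟩ := ih
    choose st hst using fun a => clL_spec (re r) a
    refine ⟨max s₀ ((Finset.range ((R b1 r).1 + 1)).sup fun t => st ((R b1 r).1 + t)),
      fun t ht => ?_⟩
    rw [run_succ, R_succ, hs₀ t ((le_max_left _ _).trans ht)]
    refine stepc_congr fun u hu => hst _ t ?_
    refine le_trans ?_ ((le_max_right _ _).trans ht)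
    exact Finset.le_sup (f := fun t => st ((R b1 r).1 + t)) (Finset.mem_range.2 (by omega))


theorem le_bound (b1 r : ℕ) : r ≤ (R b1 r).1 := by
  induction r with
  | zero => exact Nat.zero_le _
  | succ r ih =>
    rw [R_succ]
    unfold stepc nM
    dsimp only
    omega

theorem bound_step (b1 r : ℕ) : (R b1 r).1 ≤ (R b1 (r + 1)).1 := by
  rw [R_succ]
  unfold stepc nM
  dsimp only
  omega

theorem bound_mono (b1 : ℕ) {r t : ℕ} (h : r ≤ t) : (R b1 r).1 ≤ (R b1 t).1 := by
  induction h with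
  | refl => exact le_rfl
  | step _ ih => exact ih.trans (bound_step b1 _)

/-- the new entry has its location in `[M, nM)` -/
theorem ent_mem (b1 : ℕ) (c : ℕ → ℕ) (r M : ℕ) :
    M ≤ (ent b1 c r M).2.1 ∧ (ent b1 c r M).2.1 < nM c M := by
  unfold ent nM
  by_cases h : M ≤ c (M + Ac c M)
  · rw [if_pos h]
    exact ⟨h, by dsimp only; omega⟩
  · rw [if_neg h]
    have h2 : (Wc c M).unpair.2 ≤ M := by
      by_cases hw : Wc c M = 0
      · rw [hw]; simp
      · have := Nat.findGreatest_of_ne_zero (n := (M + 1) ^ 2)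
          (P := fun w : ℕ => (w.unpair.1 < w.unpair.2 ∧ w.unpair.2 ≤ M) ∧
            c (M + w.unpair.1) = c (M + w.unpair.2)) (m := Wc c M) rfl hw
        exact this.1.2
    dsimp only
    omega

theorem lk_fresh (b0 b1 r i k : ℕ) (h : (R b1 r).1 ≤ k) : lk b0 (R b1 r).2 i k = b0 := by
  induction r with
  | zero => rfl
  | succ r ih =>
    have hb := (bound_step b1 r).trans h
    rw [R_succ] at h ⊢
    unfold stepc at h ⊢
    dsimp only at h ⊢
    have := (ent_mem b1 (clL (re r)) r (R b1 r).1).2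
    rw [lk_concat, lk_concat, if_neg (by dsimp only; omega), if_neg (by omega)]
    exact ih hb

theorem lk_stable_step (b0 b1 r i k : ℕ) (h : k < (R b1 r).1) :
    lk b0 (R b1 (r + 1)).2 i k = lk b0 (R b1 r).2 i k := by
  rw [R_succ]
  unfold stepc
  dsimp only
  have h1 := (ent_mem b1 (clL (re r)) r (R b1 r).1).1
  have h2 : (R b1 r).1 ≤ nM (clL (re r)) (R b1 r).1 := by unfold nM; omega
  rw [lk_concat, lk_concat, if_neg (by dsimp only; omega), if_neg (by omega)]

theorem lk_stable (b0 b1 : ℕ) {r t : ℕ} (i k : ℕ) (hrt : r ≤ t) (h : k < (R b1 r).1) :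
    lk b0 (R b1 t).2 i k = lk b0 (R b1 r).2 i k := by
  induction hrt with
  | refl => rfl
  | step hm ih => rw [lk_stable_step _ _ _ _ _ (h.trans_le (bound_mono b1 hm)), ih]

/-- the `i`-th relabelling -/
noncomputable def dl (b0 b1 i k : ℕ) : ℕ := lk b0 (R b1 (k + 1)).2 i k

theorem dl_eq (b0 b1 i : ℕ) {k r : ℕ} (h : k < (R b1 r).1) : dl b0 b1 i k = lk b0 (R b1 r).2 i k := by
  unfold dl
  have h1 : k < (R b1 (k + 1)).1 := (Nat.lt_succ_self k).trans_le (le_bound b1 (k + 1))
  rcases le_total r (k + 1) with h2 | h2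
  · exact lk_stable b0 b1 i k h2 h
  · exact (lk_stable b0 b1 i k h2 h1).symm

theorem dl_surj (b0 b1 i m : ℕ) : ∃ k, dl b0 b1 i k = m := by
  let r := Nat.pair (Nat.pair 0 i) (Nat.pair 0 m)
  have hi : ri r = i := by simp [r, ri]
  have hm : rm r = m := by simp [r, rm]
  refine ⟨nM (clL (re r)) (R b1 r).1, ?_⟩
  rw [dl_eq b0 b1 i (r := r + 1) (by rw [R_succ]; unfold stepc; dsimp only; omega), R_succ]
  unfold stepc
  dsimp only
  rw [lk_concat, if_pos ⟨hi, rfl⟩]
  exact hm

/-- the diagonalisation -/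
theorem dl_diag (b0 b1 : ℕ) {i j : ℕ} (hij : i ≠ j) {h : ℕ → ℕ} (hh : Computable h) :
    (∃ x, dl b0 b1 i (F x) = b0 ∧ dl b0 b1 j (F (h x)) = b1) ∨
    (∃ x y, F (h x) = F (h y) ∧ dl b0 b1 i (F x) = b0 ∧ dl b0 b1 i (F y) = b1) := by
  obtain ⟨c, hc⟩ := Code.exists_code.1 (Partrec.nat_iff.1 (hh : Partrec (h : ℕ →. ℕ)))
  let e := Encodable.encode c
  have he : ∀ x, (Denumerable.ofNat Code e).eval x = Part.some (h x) := by
    intro x
    rw [show Denumerable.ofNat Code e = c from Denumerable.ofNat_encode c, hc]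
    rfl
  let r := Nat.pair (Nat.pair e i) (Nat.pair j 0)
  have hre : re r = e := by simp [r, re]
  have hri : ri r = i := by simp [r, ri]
  have hrj : rj r = j := by simp [r, rj]
  set M := (R b1 r).1 with hM
  set cc := clL e with hcc
  have hR : R b1 (r + 1) = stepc b1 cc r (R b1 r) := by rw [R_succ, hre]
  have hnM : ∀ k, k ≤ 2 * M → k < nM cc M := fun k hk => by unfold nM; omega
  have hfst : (R b1 (r + 1)).1 = nM cc M + 1 := by rw [hR]; rfl
  -- value of `dl` at locations below the new bound, not at the surjectivity location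
  have hval : ∀ i' k, k < nM cc M → dl b0 b1 i' k =
      if (ent b1 cc r M).1 = i' ∧ (ent b1 cc r M).2.1 = k then (ent b1 cc r M).2.2
      else lk b0 (R b1 r).2 i' k := by
    intro i' k hk
    rw [dl_eq b0 b1 i' (r := r + 1) (by rw [hfst]; omega), hR]
    unfold stepc
    dsimp only
    rw [lk_concat, lk_concat, if_neg (by
      rintro ⟨_, h2⟩
      dsimp only at h2
      rw [← hM] at h2
      omega)]
  by_cases hA : M ≤ cc (M + Ac cc M)
  · left
    have hle : Ac cc M ≤ M := Nat.findGreatest_le _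
    obtain ⟨x, hx, hhx⟩ := clL_total he (M + Ac cc M)
    have hent : ent b1 cc r M = (j, cc (M + Ac cc M), b1) := by
      unfold ent; rw [if_pos hA, hrj]
    refine ⟨x, ?_, ?_⟩
    · rw [hx, hval i _ (hnM _ (by omega)), hent, if_neg (by
        rintro ⟨h1, _⟩; exact hij h1.symm)]
      exact lk_fresh b0 b1 r i _ (by omega)
    · have hk : cc (M + Ac cc M) < nM cc M := by unfold nM; omega
      rw [← hhx, hval j _ hk, hent, if_pos ⟨rfl, rfl⟩]
  · right
    -- every location in `[M, 2M]` is sent below `M`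
    have hall : ∀ t ≤ M, cc (M + t) < M := by
      intro t ht
      by_contra hcon
      push Not at hcon
      exact hA (Nat.findGreatest_spec (P := fun t => M ≤ cc (M + t)) ht hcon)
    obtain ⟨t, ht, t', ht', hne, heq⟩ : ∃ t ∈ Finset.range (M + 1), ∃ t' ∈ Finset.range (M + 1),
        t ≠ t' ∧ cc (M + t) = cc (M + t') := by
      refine Finset.exists_ne_map_eq_of_card_lt_of_maps_to (t := Finset.range M) (by simp) ?_
      intro t ht
      exact Finset.mem_coe.2 (Finset.mem_range.2 (hall t (by simpa [Nat.lt_succ_iff] using ht)))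
    simp only [Finset.mem_range] at ht ht'
    have hexw : ∃ w ≤ (M + 1) ^ 2, (w.unpair.1 < w.unpair.2 ∧ w.unpair.2 ≤ M) ∧
        cc (M + w.unpair.1) = cc (M + w.unpair.2) := by
      have hb : ∀ u v : ℕ, u ≤ M → v ≤ M → Nat.pair u v ≤ (M + 1) ^ 2 := by
        intro u v hu hv
        have h1 := Nat.pair_lt_max_add_one_sq u v
        have h2 : (max u v + 1) ^ 2 ≤ (M + 1) ^ 2 := Nat.pow_le_pow_left (by omega) 2
        omega
      rcases lt_or_gt_of_ne hne with hlt | hlt
      · exact ⟨Nat.pair t t', hb _ _ (by omega) (by omega), by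
          simp only [Nat.unpair_pair]; exact ⟨⟨hlt, by omega⟩, heq⟩⟩
      · exact ⟨Nat.pair t' t, hb _ _ (by omega) (by omega), by
          simp only [Nat.unpair_pair]; exact ⟨⟨hlt, by omega⟩, heq.symm⟩⟩
    obtain ⟨w, hw, hwP⟩ := hexw
    have hspec : ((Wc cc M).unpair.1 < (Wc cc M).unpair.2 ∧ (Wc cc M).unpair.2 ≤ M) ∧
        cc (M + (Wc cc M).unpair.1) = cc (M + (Wc cc M).unpair.2) :=
      Nat.findGreatest_spec (P := fun w : ℕ => (w.unpair.1 < w.unpair.2 ∧ w.unpair.2 ≤ M) ∧
        cc (M + w.unpair.1) = cc (M + w.unpair.2)) hw hwP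
    set u := (Wc cc M).unpair.1 with hu
    set v := (Wc cc M).unpair.2 with hv
    have hent : ent b1 cc r M = (i, M + v, b1) := by
      unfold ent; rw [if_neg hA, hri]
    obtain ⟨x, hx, hhx⟩ := clL_total he (M + u)
    obtain ⟨y, hy, hhy⟩ := clL_total he (M + v)
    refine ⟨x, y, ?_, ?_, ?_⟩
    · rw [← hhx, ← hhy]; exact hspec.2
    · rw [hx, hval i _ (hnM _ (by omega)), hent, if_neg (by
        rintro ⟨_, h2⟩; dsimp only at h2; omega)]
      exact lk_fresh b0 b1 r i _ (by omega)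
    · rw [hy, hval i _ (hnM _ (by omega)), hent, if_pos ⟨rfl, rfl⟩]

/-- `alpha` is a minimal numbering of `A`: every numbering of `A` (computable or not) that reduces
to `alpha` is equivalent to it. -/
def IsMinimalNumbering (A : Set (Set ℕ)) (α : ℕ → Set ℕ) : Prop :=
  ∀ β : ℕ → Set ℕ, Set.range β = A → Red β α → Red α β

/-- For `n ≥ 2`, every infinite `Σ⁰ₙ`-computable family has infinitely many pairwise inequivalent
`Σ⁰ₙ`-computable minimal numberings. -/
theorem result (n : ℕ) (hn : 2 ≤ n) (A : Set (Set ℕ)) (hinf : A.Infinite)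
    (hA : ∃ α, CompNumbering n A α) :
    ∃ β : ℕ → ℕ → Set ℕ, (∀ i, CompNumbering n A (β i) ∧ IsMinimalNumbering A (β i)) ∧
      ∀ i j, i ≠ j → ¬ Red (β i) (β j) := by
  obtain ⟨α, hα⟩ := hA
  -- two indices of different members
  obtain ⟨b0, b1, hb⟩ : ∃ b0 b1, α b0 ≠ α b1 := by
    by_contra hcon
    push Not at hcon
    apply hinf
    rw [← hα.range_eq]
    refine (Set.finite_singleton (α 0)).subset ?_
    rintro _ ⟨k, rfl⟩
    exact hcon k 0
  have hrange : ∀ i, Set.range (fun k => α (dl b0 b1 i k)) = A := by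
    intro i
    rw [← hα.range_eq]
    ext B
    constructor
    · rintro ⟨x, rfl⟩; exact ⟨_, rfl⟩
    · rintro ⟨m, rfl⟩
      obtain ⟨k, hk⟩ := dl_surj b0 b1 i m
      exact ⟨k, by simp [hk]⟩
  refine ⟨fun i x => α (dl b0 b1 i (F x)), fun i => ⟨⟨?_, ?_⟩, ?_⟩, ?_⟩
  · exact (minimal_comp_F (hrange i) hinf).1
  · refine sigma_comp_lim hn hα.sigma (g := fun s x => lk b0 (run b1 s (fs s x + 1)).2 i (fs s x))
      (D := fun x => dl b0 b1 i (F x)) ?_ ?_
    · have h1 : Primrec (fun p : ℕ × ℕ => fs p.1 p.2) := primrec_fs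
      exact ((primrec_lk b0).comp ((Primrec.snd.comp ((primrec_run b1).comp Primrec.fst
        (Primrec.succ.comp h1))).pair ((Primrec.const i).pair h1))).to_comp
    · intro x
      obtain ⟨s₀, hs₀⟩ := fs_eq_F x
      obtain ⟨s₁, hs₁⟩ := run_lim b1 (F x + 1)
      refine ⟨max s₀ s₁, fun t ht => ?_⟩
      rw [hs₀ t ((le_max_left _ _).trans ht), hs₁ t ((le_max_right _ _).trans ht)]
      rfl
  · exact (minimal_comp_F (hrange i) hinf).2
  · rintro i j hij ⟨h, hh, hred⟩
    rcases dl_diag b0 b1 hij hh with ⟨x, hx, hhx⟩ | ⟨x, y, hxy, hx, hy⟩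
    · have := hred x
      dsimp only at this
      rw [hx, hhx] at this
      exact hb this
    · have h1 := hred x
      have h2 := hred y
      dsimp only at h1 h2
      rw [hxy, ← h2, hx, hy] at h1
      exact hb h1

end Pool.Agent.Results.MP_711492_lc.InfManyMinimal
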